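import Mathlib
import Pool.Agent.H20.Q1.Step

set_option autoImplicit false
open Finset

/-!
# Corners: a domain with a hole at its corner (general scheme, deterministic part)

`P` : the strict inside of a domain with the corner `w`; `E` : ambient labels. `Bq P E o N w b x` : the
cluster of `x` outside the hole of radius `b` comes from far, reaches the hole and stays in `P`.
-/

namespace Pool.Agent.H60.Q1.Corn

open Pool.Agent.H75.Perc Pool.Agent.H75.TwoArm Pool.Agent.H75.Four Pool.Agent.H49.Perc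
open Pool.Agent.H99.NC Pool.Agent.H60.Q1
open Pool.Agent.H20.Q1 (Sph mem_Sph BR_mono BR_ends BR_of_ends box_or_exit last_exit count_dis cmp_co'
  cond_gen mix_back Seal)

/-- `x` is the first vertex on the sphere of its outer cluster, which reaches far -/
def Oc (E : Finset (ℤ × ℤ)) (o : ℤ × ℤ) (N : ℤ) (x : ℤ × ℤ) (ω : Finset (ℤ × ℤ)) : Prop :=
  (∃ v, Far o (8 * N) v ∧ Co (ω ∩ (E \ BR o (2 * N))) x v) ∧
  ∀ y ∈ Sph o (2 * N), Co (ω ∩ (E \ BR o (2 * N))) x y → Encodable.encode x ≤ Encodable.encode y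

/-- a cluster of the domain comes from far to the hole of radius `b` -/
def Bq (P : ℤ × ℤ → Prop) (E : Finset (ℤ × ℤ)) (o : ℤ × ℤ) (N : ℤ) (w : ℤ × ℤ) (b : ℤ) (x : ℤ × ℤ)
    (ω : Finset (ℤ × ℤ)) : Prop :=
  Oc E o N x ω ∧ (∃ u, inR w b u ∧ Co (ω ∩ (E \ BR w b)) x u) ∧
  ∀ y, Co (ω ∩ (E \ BR w b)) x y → P y

/-- the explored labels of the cluster of `x` outside the hole -/
noncomputable abbrev UV (E : Finset (ℤ × ℤ)) (w : ℤ × ℤ) (b : ℤ) (x : ℤ × ℤ)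
    (ω : Finset (ℤ × ℤ)) : Finset (ℤ × ℤ) := Ux (fun y => y = x) (E \ BR w b) ω

/-- the cluster of `x` outside the hole -/
abbrev CV (E : Finset (ℤ × ℤ)) (w : ℤ × ℤ) (b : ℤ) (x : ℤ × ℤ)
    (ω : Finset (ℤ × ℤ)) (y : ℤ × ℤ) : Prop := Cl (fun y => y = x) (E \ BR w b) ω y

open Classical in
/-- labels inside the domain -/
noncomputable def DP (P : ℤ × ℤ → Prop) (E : Finset (ℤ × ℤ)) : Finset (ℤ × ℤ) :=
  E.filter (fun l => P (eu l) ∧ P (ev l))

/-- a fresh path in the domain, in the box of radius `c`, from the cluster of `x` to the box of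
radius `b'` -/
def Jq (P : ℤ × ℤ → Prop) (E : Finset (ℤ × ℤ)) (w : ℤ × ℤ) (b b' c : ℤ) (x : ℤ × ℤ)
    (ω ω' : Finset (ℤ × ℤ)) : Prop :=
  ∃ u u', CV E w b x ω u ∧ inR w b' u' ∧ Co (((ω' \ UV E w b x ω) ∩ DP P E) ∩ BR w c) u u'

variable {P : ℤ × ℤ → Prop} {E ω ω' : Finset (ℤ × ℤ)} {o w x : ℤ × ℤ} {N b b' c : ℤ}

lemma mem_DP {u v : ℤ × ℤ} (h : IsUnit4 (v - u)) : u + v ∈ DP P E ↔ u + v ∈ E ∧ P u ∧ P v := by
  classical
  unfold DP
  rw [mem_filter]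
  rcases ends_of h with ⟨h1, h2⟩ | ⟨h1, h2⟩ <;> rw [h1, h2]
  tauto

lemma out_mono (h : b' ≤ b) : E \ BR w b ⊆ E \ BR w b' := sdiff_subset_sdiff le_rfl (BR_mono h)

lemma out_mono' (h : BR w b ⊆ BR o (2 * N)) : E \ BR o (2 * N) ⊆ E \ BR w b :=
  sdiff_subset_sdiff le_rfl h

lemma CV_iff {y : ℤ × ℤ} : CV E w b x ω y ↔ Co (ω ∩ (E \ BR w b)) x y := by
  unfold CV Cl
  constructor
  · rintro ⟨w0, rfl, h⟩; exact h
  · intro h; exact ⟨x, rfl, h⟩

/-- vertices of the outer cluster which lie deep in the hole are trivial -/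
lemma CV_hole {y : ℤ × ℤ} (h : CV E w b x ω y) (hy : inR w (b - 1) y) : y = x := by
  rw [CV_iff] at h
  rcases Relation.ReflTransGen.cases_tail h with h1 | ⟨z, -, h1⟩
  · exact h1
  · exfalso
    have h2 := (mem_sdiff.1 (mem_inter.1 h1.2).2).2
    apply h2
    have h3 := unit_cases h1.1
    refine BR_of_ends h1.1 ?_ ?_
    · rw [inR_iff] at hy ⊢; omega
    · rw [inR_iff] at hy ⊢; omega

/-- **first deterministic step** -/
theorem step1 (hb : b' < b) (hx : ¬ inR w (b - 1) x) (hc : b ≤ c) (hω : ω ⊆ E)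
    (h : Bq P E o N w b' x ω) :
    Bq P E o N w b x ω ∧ (Jq P E w b b' c x ω ω ∨ Arm1 w b c (ω \ UV E w b x ω)) := by
  obtain ⟨h1, ⟨u0, hu0, h2⟩, h3⟩ := h
  have hsub : ω ∩ (E \ BR w b) ⊆ ω ∩ (E \ BR w b') := inter_subset_inter_left (out_mono hb.le)
  have key : ∀ y, Co (ω ∩ (E \ BR w b')) x y → CV E w b x ω y ∨
      ∃ u, inR w b u ∧ CV E w b x ω u ∧ Co ((ω \ UV E w b x ω) ∩ DP P E) u y := by
    intro y hy
    induction hy with
    | refl => exact Or.inl (Cl.self rfl)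
    | @tail y z hxy hyz ih =>
      obtain ⟨hl1, hl2⟩ := mem_inter.1 hyz.2
      have hD : y + z ∈ DP P E := (mem_DP hyz.1).2 ⟨hω hl1, h3 y hxy, h3 z (hxy.tail hyz)⟩
      by_cases hz : CV E w b x ω z
      · exact Or.inl hz
      right
      by_cases hy : CV E w b x ω y
      · have hn : y + z ∉ E \ BR w b := fun hl => hz
          (hy.trans ((Co.refl _ _).tail ⟨hyz.1, mem_inter.2 ⟨hl1, hl⟩⟩))
        have hbr : y + z ∈ BR w b := by
          by_contra h'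
          exact hn (mem_sdiff.2 ⟨hω hl1, h'⟩)
        refine ⟨y, (BR_ends hyz.1 hbr).1, hy, (Co.refl _ _).tail ⟨hyz.1,
          mem_inter.2 ⟨mem_sdiff.2 ⟨hl1, ?_⟩, hD⟩⟩⟩
        intro hl
        exact hn (Ux_sub hl)
      · rcases ih with ih | ⟨u, hu1, hu2, hu3⟩
        · exact absurd ih hy
        · refine ⟨u, hu1, hu2, hu3.tail ⟨hyz.1, mem_inter.2 ⟨mem_sdiff.2 ⟨hl1, ?_⟩, hD⟩⟩⟩
          intro hl
          rcases ((mem_Ux_of hyz.1).1 hl).2 with h' | h'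
          · exact hy h'
          · exact hz h'
  have hu0' : ¬ CV E w b x ω u0 := by
    intro h'
    have h4 := CV_hole h' (by rw [inR_iff] at hu0 ⊢; omega)
    rw [h4] at hu0
    exact hx (by rw [inR_iff] at hu0 ⊢; omega)
  rcases key u0 h2 with h4 | ⟨u, hu1, hu2, hu3⟩
  · exact absurd h4 hu0'
  refine ⟨⟨h1, ⟨u, hu1, CV_iff.1 hu2⟩, fun y hy => h3 y (hy.mono hsub)⟩, ?_⟩
  rcases box_or_exit (w := w) (c := c) hu3 (by rw [inR_iff] at hu1 ⊢; omega) with ⟨-, h5⟩ | ⟨v', hv', h5⟩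
  · exact Or.inl ⟨u, u0, hu2, hu0, h5⟩
  · right
    refine ⟨u, v', ?_, ?_, ?_, h5.mono inter_subset_left⟩
    · rw [inR_iff] at hu1; rw [abs_le]; omega
    · rw [inR_iff] at hu1; rw [abs_le]; omega
    · rw [inR_iff] at hv'
      rw [le_abs, le_abs]
      omega

lemma Oc_mix (hbN : BR w b ⊆ BR o (2 * N)) (h : Oc E o N x ω) :
    Oc E o N x (mix (UV E w b x ω) ω ω') := by
  have hs : E \ BR o (2 * N) ⊆ E \ BR w b := out_mono' hbN
  have key : ∀ y, Co (mix (UV E w b x ω) ω ω' ∩ (E \ BR o (2 * N))) x y ↔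
      Co (ω ∩ (E \ BR o (2 * N))) x y := by
    intro y
    constructor
    · intro hy
      induction hy with
      | refl => exact Co.refl _ _
      | @tail y z _ hyz ih =>
        obtain ⟨hl1, hl2⟩ := mem_inter.1 hyz.2
        have hU : y + z ∈ UV E w b x ω := (mem_Ux_of hyz.1).2 ⟨hs hl2, Or.inl
          (CV_iff.2 (Co.mono (inter_subset_inter_left hs) ih))⟩
        rw [mem_mix] at hl1
        exact ih.tail ⟨hyz.1, mem_inter.2 ⟨by tauto, hl2⟩⟩
    · intro hy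
      induction hy with
      | refl => exact Co.refl _ _
      | @tail y z hxy hyz ih =>
        obtain ⟨hl1, hl2⟩ := mem_inter.1 hyz.2
        have hU : y + z ∈ UV E w b x ω := (mem_Ux_of hyz.1).2 ⟨hs hl2, Or.inl
          (CV_iff.2 (Co.mono (inter_subset_inter_left hs) hxy))⟩
        exact ih.tail ⟨hyz.1, mem_inter.2 ⟨mem_mix.2 (Or.inl ⟨hl1, hU⟩), hl2⟩⟩
  obtain ⟨⟨v, hv1, hv2⟩, h2⟩ := h
  exact ⟨⟨v, hv1, (key v).2 hv2⟩, fun y hy hxy => h2 y hy ((key y).1 hxy)⟩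

lemma UV_mix : UV E w b x (mix (UV E w b x ω) ω ω') = UV E w b x ω := Ux_mix

lemma CV_mix {y : ℤ × ℤ} : CV E w b x (mix (UV E w b x ω) ω ω') y ↔ CV E w b x ω y := Cl_mix

lemma Oc_mix_iff (hbN : BR w b ⊆ BR o (2 * N)) :
    Oc E o N x (mix (UV E w b x ω) ω ω') ↔ Oc E o N x ω := by
  refine ⟨fun h => ?_, Oc_mix hbN⟩
  have h1 := Oc_mix (ω' := ω) hbN h
  rwa [UV_mix, mix_back] at h1

lemma Bq_mix (hbN : BR w b ⊆ BR o (2 * N)) :
    Bq P E o N w b x (mix (UV E w b x ω) ω ω') ↔ Bq P E o N w b x ω := by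
  unfold Bq
  rw [Oc_mix_iff hbN]
  have h : ∀ y, Co (mix (UV E w b x ω) ω ω' ∩ (E \ BR w b)) x y ↔ Co (ω ∩ (E \ BR w b)) x y := by
    intro y
    rw [← CV_iff, ← CV_iff, CV_mix]
  simp only [h]

lemma Jq_mix : Jq P E w b b' c x (mix (UV E w b x ω) ω ω') (mix (UV E w b x ω) ω ω') ↔
    Jq P E w b b' c x ω ω' := by
  unfold Jq
  rw [UV_mix]
  have h : mix (UV E w b x ω) ω ω' \ UV E w b x ω = ω' \ UV E w b x ω := by
    ext l
    rw [mem_sdiff, mem_sdiff, mem_mix]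
    tauto
  rw [h]
  simp only [CV_mix]

/-- the structure of the cluster after resampling -/
theorem str (hω'E : ω' ⊆ E) {y : ℤ × ℤ} (hy : Co (mix (UV E w b x ω) ω ω') x y) :
    CV E w b x ω y ∨ ∃ u, inR w b u ∧ CV E w b x ω u ∧ Co (ω' \ UV E w b x ω) u y := by
  induction hy with
  | refl => exact Or.inl (Cl.self rfl)
  | @tail y z _ hyz ih =>
    by_cases hz : CV E w b x ω z
    · exact Or.inl hz
    right
    have hl := hyz.2
    rw [mem_mix] at hl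
    by_cases hy : CV E w b x ω y
    · have hn : y + z ∉ E \ BR w b := by
        intro hl'
        have hlU : y + z ∈ UV E w b x ω := (mem_Ux_of hyz.1).2 ⟨hl', Or.inl hy⟩
        exact hz (hy.trans ((Co.refl _ _).tail ⟨hyz.1, mem_inter.2 ⟨by tauto, hl'⟩⟩))
      have hnU : y + z ∉ UV E w b x ω := fun hl => hn (Ux_sub hl)
      have hl' : y + z ∈ ω' := by tauto
      have hbr : y + z ∈ BR w b := by
        by_contra h'
        exact hn (mem_sdiff.2 ⟨hω'E hl', h'⟩)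
      exact ⟨y, (BR_ends hyz.1 hbr).1, hy, (Co.refl _ _).tail ⟨hyz.1, mem_sdiff.2 ⟨hl', hnU⟩⟩⟩
    · rcases ih with ih | ⟨u, hu1, hu2, hu3⟩
      · exact absurd ih hy
      · have hnU : y + z ∉ UV E w b x ω := by
          intro hl
          rcases ((mem_Ux_of hyz.1).1 hl).2 with h' | h'
          · exact hy h'
          · exact hz h'
        refine ⟨u, hu1, hu2, hu3.tail ⟨hyz.1, mem_sdiff.2 ⟨by tauto, hnU⟩⟩⟩

/-- explored labels have an end in the domain and lie outside the hole -/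
lemma UV_end (h : Bq P E o N w b x ω) {l : ℤ × ℤ} (hl : l ∈ UV E w b x ω) :
    l ∉ BR w b ∧ (P (eu l) ∨ P (ev l)) := by
  obtain ⟨h1, h2⟩ := mem_Ux.1 hl
  refine ⟨(mem_sdiff.1 h1).2, ?_⟩
  rcases h2 with h2 | h2
  · exact Or.inl (h.2.2 _ (CV_iff.1 h2))
  · exact Or.inr (h.2.2 _ (CV_iff.1 h2))

/-- fresh labels keep their state -/
lemma fresh_sub (h : Bq P E o N w b x ω) {F : Finset (ℤ × ℤ)}
    (hF : ∀ l ∈ F, l ∉ BR w b → ¬ P (eu l) ∧ ¬ P (ev l)) :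
    ω' ∩ F ⊆ mix (UV E w b x ω) ω ω' := by
  intro l hl
  obtain ⟨h1, h2⟩ := mem_inter.1 hl
  rw [mem_mix]
  refine Or.inr ⟨h1, fun h3 => ?_⟩
  have h4 := UV_end h h3
  have h5 := hF l h2 h4.1
  tauto

/-- a cluster with a fresh path -/
lemma J_co (hJ : Jq P E w b b' c x ω ω') :
    ∃ u', inR w b' u' ∧ Co (mix (UV E w b x ω) ω ω') x u' := by
  obtain ⟨u, u', hu1, hu2, hu3⟩ := hJ
  refine ⟨u', hu2, ?_⟩
  have hxu : Co (mix (UV E w b x ω) ω ω') x u :=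
    ((Cl_mix (ω' := ω')).2 hu1 |> CV_iff.1).mono inter_subset_left
  refine hxu.trans (hu3.mono fun l hl => ?_)
  obtain ⟨hl1, hl2⟩ := mem_sdiff.1 (mem_inter.1 (mem_inter.1 hl).1).1
  rw [mem_mix]
  exact Or.inr ⟨hl1, hl2⟩

end Pool.Agent.H60.Q1.Corn
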