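import Mathlib
import Pool.Agent.H60.Q1.Corn.Gen

set_option autoImplicit false
open Finset

/-!
# Corners: a domain with a hole at its corner (general scheme, probabilities and counting)

`Dq` : the full cluster of `x` has vertices with `φ ≤ θ`, all of them in the box of radius `m` around
the corner and in a window `d0 ≤ d ≤ d1`. Events `Dq` with disjoint windows or distant corners exclude
each other for one cluster: `count`.
-/

namespace Pool.Agent.H60.Q1.Corn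

open Pool.Agent.H75.Perc Pool.Agent.H75.TwoArm Pool.Agent.H75.Four Pool.Agent.H49.Perc
open Pool.Agent.H99.NC Pool.Agent.H60.Q1
open Pool.Agent.H20.Q1 (Sph mem_Sph BR_mono BR_ends BR_of_ends box_or_exit last_exit count_dis cmp_co'
  cond_gen mix_back Seal)

variable {P : ℤ × ℤ → Prop} {E ω ω' : Finset (ℤ × ℤ)} {o w x : ℤ × ℤ} {N b b' c : ℤ}
  {q : ℤ × ℤ → ℝ}

/-- the full cluster of `x` has vertices with `φ ≤ θ`, all of them in a box and in a window -/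
def Dq (φ d : ℤ × ℤ → ℤ) (E : Finset (ℤ × ℤ)) (o : ℤ × ℤ) (N : ℤ) (w : ℤ × ℤ) (m θ d0 d1 : ℤ)
    (x : ℤ × ℤ) (ω : Finset (ℤ × ℤ)) : Prop :=
  Oc E o N x ω ∧ (∃ y, Co ω x y ∧ φ y ≤ θ) ∧
  ∀ y, Co ω x y → φ y ≤ θ → inR w m y ∧ d0 ≤ d y ∧ d y ≤ d1

/-- insertion of an increasing event near the fresh path and of an independent event elsewhere -/
theorem fresh (hq : Pb q) {E1 : Finset (ℤ × ℤ)} (hE1 : E1 ⊆ E) (hJ : DP P E ∩ BR w c ⊆ E1)
    {G1 G2 : Finset (ℤ × ℤ) → Prop} (i1 : Inc G1) (l1 : ∀ η, η ⊆ E → (G1 η ↔ G1 (η ∩ E1)))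
    (l2 : ∀ η, η ⊆ E → (G2 η ↔ G2 (η \ E1))) {c1 c2 : ℝ} (hc2 : 0 ≤ c2)
    (h1 : c1 ≤ PrP q E G1) (h2 : c2 ≤ PrP q E G2) (ω : Finset (ℤ × ℤ)) :
    PrP q E (Jq P E w b b' c x ω) * (c1 * c2) ≤
      PrP q E (fun ω' => Jq P E w b b' c x ω ω' ∧ (G1 ω' ∧ G2 ω')) := by
  have lJ : ∀ ω', Jq P E w b b' c x ω ω' ↔ Jq P E w b b' c x ω (ω' ∩ E1) := by
    intro ω'
    unfold Jq
    have : (ω' ∩ E1) \ UV E w b x ω ∩ DP P E ∩ BR w c =
        ω' \ UV E w b x ω ∩ DP P E ∩ BR w c := by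
      ext l
      simp only [mem_inter, mem_sdiff]
      constructor
      · tauto
      · rintro ⟨⟨⟨h3, h4⟩, h5⟩, h6⟩
        exact ⟨⟨⟨⟨h3, hJ (mem_inter.2 ⟨h5, h6⟩)⟩, h4⟩, h5⟩, h6⟩
    rw [this]
  have e1 : PrP q E (fun ω' => Jq P E w b b' c x ω ω' ∧ (G1 ω' ∧ G2 ω')) =
      PrP q E1 (fun η => Jq P E w b b' c x ω η ∧ G1 η) * PrP q (E \ E1) G2 := by
    rw [← PrP_split q hE1]
    refine PrP_congr fun ω' hω' => ?_
    rw [← lJ ω', ← l1 ω' hω', ← l2 ω' hω']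
    tauto
  have e2 : PrP q E (Jq P E w b b' c x ω) = PrP q E1 (Jq P E w b b' c x ω) := by
    rw [← PrP_restrict q hE1]
    exact PrP_congr fun ω' _ => lJ ω'
  have e4 : PrP q E G1 = PrP q E1 G1 := by
    rw [← PrP_restrict q hE1]
    exact PrP_congr l1
  have e5 : PrP q E G2 = PrP q (E \ E1) G2 := by
    have h3 := PrP_split q hE1 (fun _ => True) G2
    rw [PrP_true, one_mul] at h3
    rw [← h3]
    refine PrP_congr fun ω' hω' => ?_
    rw [l2 ω' hω']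
    tauto
  have iJ : Inc (Jq P E w b b' c x ω) := by
    rintro η η' h ⟨u, u', h3, h4, h5⟩
    exact ⟨u, u', h3, h4, h5.mono (inter_subset_inter_right (inter_subset_inter_right
      (sdiff_subset_sdiff h le_rfl)))⟩
  have e3 := PrP_harris hq E1 iJ i1
  rw [e4] at h1
  rw [e5] at h2
  rw [e1, e2]
  have n1 := PrP_nonneg hq E1 (Jq P E w b b' c x ω)
  calc PrP q E1 (Jq P E w b b' c x ω) * (c1 * c2)
      = (PrP q E1 (Jq P E w b b' c x ω) * c1) * c2 := by ring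
    _ ≤ PrP q E1 (fun η => Jq P E w b b' c x ω η ∧ G1 η) * c2 := by
        refine mul_le_mul_of_nonneg_right ?_ hc2
        exact (mul_le_mul_of_nonneg_left h1 n1).trans e3
    _ ≤ _ := mul_le_mul_of_nonneg_left h2 (PrP_nonneg hq _ _)

/-- the gadget costs a constant -/
theorem step3 (hq : Pb q) (hbN : BR w b ⊆ BR o (2 * N)) {D G : Finset (ℤ × ℤ) → Prop} {c0 : ℝ}
    (hD : ∀ ω ω', ω ⊆ E → ω' ⊆ E → Bq P E o N w b x ω → Jq P E w b b' c x ω ω' → G ω' →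
      D (mix (UV E w b x ω) ω ω'))
    (hG : ∀ ω, PrP q E (Jq P E w b b' c x ω) * c0 ≤
      PrP q E (fun ω' => Jq P E w b b' c x ω ω' ∧ G ω')) :
    PrP q E (fun ω => Bq P E o N w b x ω ∧ Jq P E w b b' c x ω ω) * c0 ≤ PrP q E D := by
  refine cond_gen hq E (UV E w b x) (fun ω ω' _ _ => UV_mix) _ _
    (fun ω ω' => Bq P E o N w b x ω ∧ Jq P E w b b' c x ω ω') G ?_ ?_ ?_
  · intro ω ω' _ _
    rw [Bq_mix hbN, Jq_mix]
  · intro ω ω' hω hω' h3 h4
    exact hD ω ω' hω hω' h3.1 h3.2 h4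
  · intro ω _
    by_cases hB : Bq P E o N w b x ω
    · have e1 : PrP q E (fun ω' => Bq P E o N w b x ω ∧ Jq P E w b b' c x ω ω') =
          PrP q E (Jq P E w b b' c x ω) := PrP_congr fun ω' _ => by tauto
      have e2 : PrP q E (fun ω' => (Bq P E o N w b x ω ∧ Jq P E w b b' c x ω ω') ∧ G ω') =
          PrP q E (fun ω' => Jq P E w b b' c x ω ω' ∧ G ω') := PrP_congr fun ω' _ => by tauto
      rw [e1, e2]
      exact hG ω
    · have e1 : PrP q E (fun ω' => Bq P E o N w b x ω ∧ Jq P E w b b' c x ω ω') = 0 := by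
        unfold PrP
        rw [show (fun ω' => ind (Bq P E o N w b x ω ∧ Jq P E w b b' c x ω ω')) = fun _ => 0 from
          funext fun _ => ind_false (by tauto)]
        exact Ex_const q E 0
      rw [e1, zero_mul]
      exact PrP_nonneg hq _ _

/-- a fresh arm costs `ε` -/
theorem step4 (hq : Pb q) (hbN : BR w b ⊆ BR o (2 * N)) {ε : ℝ}
    (h : PrP q E (Arm1 w b c) ≤ ε) :
    PrP q E (fun ω => Arm1 w b c (ω \ UV E w b x ω) ∧ Bq P E o N w b x ω) ≤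
      PrP q E (Bq P E o N w b x) * ε := by
  refine resampleP_le hq E (UV E w b x) (fun ω ω' _ _ => UV_mix) _ _
    (fun ω ω' => Arm1 w b c (ω' \ UV E w b x ω)) ε ?_ ?_ ?_
  · intro ω ω' _ _ h1
    exact (Bq_mix hbN).1 h1
  · intro ω _ _
    exact (PrP_mono hq fun ω' _ h1 => Arm1_inc w b c _ _ sdiff_subset h1).trans h
  · intro ω ω' _ _ _ h1
    rw [UV_mix] at h1
    have h2 : mix (UV E w b x ω) ω ω' \ UV E w b x ω = ω' \ UV E w b x ω := by
      ext l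
      rw [mem_sdiff, mem_sdiff, mem_mix]
      tauto
    rwa [h2] at h1

/-- expected number of clusters at the hole `w` of radius `b` -/
noncomputable def nB (P : ℤ × ℤ → Prop) (q : ℤ × ℤ → ℝ) (E : Finset (ℤ × ℤ)) (o : ℤ × ℤ) (N : ℤ)
    (w : ℤ × ℤ) (b : ℤ) : ℝ := ∑ x ∈ Sph o (2 * N), PrP q E (Bq P E o N w b x)

/-- expected number of marked clusters -/
noncomputable def nD (φ d : ℤ × ℤ → ℤ) (q : ℤ × ℤ → ℝ) (E : Finset (ℤ × ℤ)) (o : ℤ × ℤ) (N : ℤ)
    (w : ℤ × ℤ) (m θ d0 d1 : ℤ) : ℝ :=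
  ∑ x ∈ Sph o (2 * N), PrP q E (Dq φ d E o N w m θ d0 d1 x)

lemma nD_nonneg (hq : Pb q) {φ d : ℤ × ℤ → ℤ} {m θ d0 d1 : ℤ} :
    0 ≤ nD φ d q E o N w m θ d0 d1 := sum_nonneg fun _ _ => PrP_nonneg hq _ _

lemma nB_nonneg (hq : Pb q) : 0 ≤ nB P q E o N w b := sum_nonneg fun _ _ => PrP_nonneg hq _ _

/-- one step of the recursion at a fixed corner -/
theorem step5 (hq : Pb q) {φ d : ℤ × ℤ → ℤ} {m θ d0 d1 : ℤ} (hb : b' < b) (hbc : b ≤ c)
    (hbN : b ≤ N) (hw : inR o N w) {G : Finset (ℤ × ℤ) → Prop} {c0 ε : ℝ} (hc0 : 0 < c0)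
    (hD : ∀ x ∈ Sph o (2 * N), ∀ ω ω', ω ⊆ E → ω' ⊆ E → Bq P E o N w b x ω →
      Jq P E w b b' c x ω ω' → G ω' → ¬ inR w (b - 1) x →
      Dq φ d E o N w m θ d0 d1 x (mix (UV E w b x ω) ω ω'))
    (hG : ∀ x ω, PrP q E (Jq P E w b b' c x ω) * c0 ≤
      PrP q E (fun ω' => Jq P E w b b' c x ω ω' ∧ G ω'))
    (h : PrP q E (Arm1 w b c) ≤ ε) :
    nB P q E o N w b' ≤ nD φ d q E o N w m θ d0 d1 / c0 + nB P q E o N w b * ε := by
  unfold nB nD
  rw [sum_div, sum_mul, ← sum_add_distrib]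
  refine sum_le_sum fun x hx => ?_
  have hx0 := hx
  rw [mem_Sph] at hx
  have hbN' : BR w b ⊆ BR o (2 * N) := by
    unfold BR
    rw [inR_iff] at hw
    exact Bx_sub (by omega) (by omega) (by omega) (by omega)
  have hxw : ¬ inR w (b - 1) x := by
    rw [inR_iff] at hw ⊢
    have hx2 := hx.2
    rw [le_abs, le_abs] at hx2
    omega
  have e1 := step3 (x := x) (G := G) hq hbN' (fun ω ω' h1 h2 h3 h4 h5 => hD x hx0 ω ω' h1 h2 h3 h4 h5 hxw)
    (hG x)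
  have e2 := step4 (P := P) (o := o) (N := N) (x := x) hq hbN' h
  have e3 : PrP q E (Bq P E o N w b' x) ≤
      PrP q E (fun ω => Bq P E o N w b x ω ∧ Jq P E w b b' c x ω ω) +
      PrP q E (fun ω => Arm1 w b c (ω \ UV E w b x ω) ∧ Bq P E o N w b x ω) := by
    refine le_trans (PrP_mono hq fun ω hω h3 => ?_) (PrP_or_le hq E _ _)
    have h4 := step1 (b := b) (c := c) hb hxw hbc hω h3
    tauto
  have e4 : PrP q E (fun ω => Bq P E o N w b x ω ∧ Jq P E w b b' c x ω ω) ≤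
      PrP q E (Dq φ d E o N w m θ d0 d1 x) / c0 := by
    rw [le_div_iff₀ hc0]
    exact e1
  linarith

/-- **marked clusters: events with disjoint windows or distant corners exclude each other** -/
theorem count {ι : Type*} (hq : Pb q) {φ d : ℤ × ℤ → ℤ} {r : ℝ}
    (hr : PrP q E (Arm1 o (2 * N) (8 * N)) ≤ r) (hr1 : r < 1) (T : Finset ι)
    (W : ι → ℤ × ℤ) (m θ d0 d1 : ι → ℤ)
    (hT : ∀ i ∈ T, ∀ j ∈ T, i ≠ j → d1 i < d0 j ∨ d1 j < d0 i ∨
      m i + m j < |(W i).1 - (W j).1| ∨ m i + m j < |(W i).2 - (W j).2|) :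
    ∑ i ∈ T, nD φ d q E o N (W i) (m i) (θ i) (d0 i) (d1 i) ≤ r / (1 - r) := by
  unfold nD
  rw [← sum_product' (f := fun i x => PrP q E (Dq φ d E o N (W i) (m i) (θ i) (d0 i) (d1 i) x))]
  refine count_dis hq E o (2 * N) (8 * N) hr hr1 (T ×ˢ Sph o (2 * N))
    (fun _ => E \ BR o (2 * N)) (fun p => p.2)
    (fun p => Dq φ d E o N (W p.1) (m p.1) (θ p.1) (d0 p.1) (d1 p.1) p.2) ?_ ?_ ?_
  · rintro ⟨w, x⟩ hp
    rw [mem_product] at hp
    exact (mem_Sph.1 hp.2).1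
  · rintro ω - ⟨w, x⟩ - h
    obtain ⟨⟨⟨v, hv1, hv2⟩, -⟩, -⟩ := h
    exact ⟨v, hv1, hv2⟩
  · rintro ω - ⟨i, x⟩ hp ⟨j, x'⟩ hp' hne h h'
    rw [mem_product] at hp hp'
    rw [disjoint_left]
    intro l hl hl'
    obtain ⟨-, c1⟩ := cmp_co' hl
    obtain ⟨-, c2⟩ := cmp_co' hl'
    have c3 : Co (ω ∩ (E \ BR o (2 * N))) x x' := c1.trans c2.symm
    by_cases hw : i = j
    · subst hw
      have e1 := h.1.2 x' hp'.2 c3
      have e2 := h'.1.2 x hp.2 c3.symm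
      have e3 : x = x' := Encodable.encode_injective (le_antisymm e1 e2)
      exact hne (by rw [e3])
    · have c4 : Co ω x x' := c3.mono inter_subset_left
      have hd := hT i hp.1 j hp'.1 hw
      simp only at h h'
      have key : ∃ y, (inR (W i) (m i) y ∧ d0 i ≤ d y ∧ d y ≤ d1 i) ∧
          (inR (W j) (m j) y ∧ d0 j ≤ d y ∧ d y ≤ d1 j) := by
        rcases le_total (θ i) (θ j) with hle | hle
        · obtain ⟨y, y1, y2⟩ := h.2.1
          exact ⟨y, h.2.2 y y1 y2, h'.2.2 y (c4.symm.trans y1) (y2.trans hle)⟩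
        · obtain ⟨y, y1, y2⟩ := h'.2.1
          exact ⟨y, h.2.2 y (c4.trans y1) (y2.trans hle), h'.2.2 y y1 y2⟩
      obtain ⟨y, ⟨y1, y2, y3⟩, ⟨y4, y5, y6⟩⟩ := key
      rw [inR_iff] at y1 y4
      rw [lt_abs, lt_abs] at hd
      omega

/-- trivial bound -/
theorem nB_le (hq : Pb q) {r : ℝ} (hr : PrP q E (Arm1 o (2 * N) (8 * N)) ≤ r) (hr1 : r < 1) :
    nB P q E o N w b ≤ r / (1 - r) := by
  unfold nB
  refine count_dis hq E o (2 * N) (8 * N) hr hr1 (Sph o (2 * N))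
    (fun _ => E \ BR o (2 * N)) (fun x => x) (fun x => Bq P E o N w b x) ?_ ?_ ?_
  · intro x hx
    exact (mem_Sph.1 hx).1
  · rintro ω - x - h
    obtain ⟨⟨⟨v, hv1, hv2⟩, -⟩, -⟩ := h
    exact ⟨v, hv1, hv2⟩
  · rintro ω - x hx x' hx' hne h h'
    refine cmp_disj fun c3 => hne ?_
    have e1 := h.1.2 x' hx' c3
    have e2 := h'.1.2 x hx c3.symm
    exact Encodable.encode_injective (le_antisymm e1 e2)

/-- sums over the corners `W t`, `t` in an interval, and over scales with disjoint windows: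
one residue class per scale -/
theorem count_avg (hq : Pb q) {φ d : ℤ × ℤ → ℤ} {r : ℝ}
    (hr : PrP q E (Arm1 o (2 * N) (8 * N)) ≤ r) (hr1 : r < 1) (J : Finset ℕ) (I : Finset ℤ)
    (W : ℤ → ℤ × ℤ) (hW : ∀ t s : ℤ, |t - s| ≤ |(W t).2 - (W s).2|) (m d0 d1 : ℕ → ℤ)
    (θ : ℕ → ℤ → ℤ) (hm : ∀ j ∈ J, 0 ≤ m j)
    (hd : ∀ i ∈ J, ∀ j ∈ J, i < j → d1 i < d0 j) :
    ∑ j ∈ J, (∑ t ∈ I, nD φ d q E o N (W t) (m j) (θ j t) (d0 j) (d1 j)) / (2 * m j + 1) ≤
      r / (1 - r) := by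
  classical
  set M : ℕ → ℤ := fun j => 2 * m j + 1 with hM
  set S : ℕ → ℤ → ℝ := fun j s => ∑ t ∈ I.filter (fun t => t % M j = s),
    nD φ d q E o N (W t) (m j) (θ j t) (d0 j) (d1 j) with hS
  -- the best residue class
  have hbest : ∀ j ∈ J, ∃ s ∈ Finset.Ico (0 : ℤ) (M j),
      (∑ t ∈ I, nD φ d q E o N (W t) (m j) (θ j t) (d0 j) (d1 j)) / (2 * m j + 1) ≤ S j s := by
    intro j hj
    have hm0 := hm j hj
    have hM0 : 0 < M j := by simp only [hM]; omega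
    have hmap : ∀ t ∈ I, t % M j ∈ Finset.Ico (0 : ℤ) (M j) := fun t _ => by
      rw [mem_Ico]
      exact ⟨Int.emod_nonneg _ hM0.ne', Int.emod_lt_of_pos _ hM0⟩
    have h1 := sum_fiberwise_of_maps_to hmap
      (fun t => nD φ d q E o N (W t) (m j) (θ j t) (d0 j) (d1 j))
    by_contra hcon
    push Not at hcon
    have hne : (Finset.Ico (0 : ℤ) (M j)).Nonempty := ⟨0, by rw [mem_Ico]; omega⟩
    have h2 := sum_lt_sum_of_nonempty hne hcon
    rw [h1, sum_const, Int.card_Ico, nsmul_eq_mul, sub_zero] at h2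
    have h3 : ((((M j).toNat : ℕ)) : ℝ) = 2 * m j + 1 := by
      rw [← Int.cast_natCast, Int.toNat_of_nonneg hM0.le]
      simp only [hM]
      push_cast
      ring
    have hpos : (0 : ℝ) < 2 * m j + 1 := by
      have : (0 : ℝ) ≤ m j := by exact_mod_cast hm0
      linarith
    rw [h3, mul_div_cancel₀ _ hpos.ne'] at h2
    exact lt_irrefl _ h2
  choose! s hs1 hs2 using hbest
  refine (sum_le_sum hs2).trans ?_
  -- one sum over pairs
  have hsig : ∑ j ∈ J, S j (s j) = ∑ p ∈ J.sigma (fun j => I.filter (fun t => t % M j = s j)),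
      nD φ d q E o N (W p.2) (m p.1) (θ p.1 p.2) (d0 p.1) (d1 p.1) := by
    rw [sum_sigma]
  rw [hsig]
  refine count hq hr hr1 (J.sigma (fun j => I.filter (fun t => t % M j = s j)))
    (fun p => W p.2) (fun p => m p.1) (fun p => θ p.1 p.2) (fun p => d0 p.1) (fun p => d1 p.1) ?_
  rintro ⟨i, t⟩ hp ⟨j, t'⟩ hp' hne
  rw [mem_sigma] at hp hp'
  simp only at hp hp' ⊢
  rcases lt_trichotomy i j with h | h | h
  · exact Or.inl (hd i hp.1 j hp'.1 h)
  · subst h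
    right; right; right
    have hm0 := hm i hp.1
    have hM0 : 0 < M i := by simp only [hM]; omega
    have e1 := (mem_filter.1 hp.2).2
    have e2 := (mem_filter.1 hp'.2).2
    have htt : t ≠ t' := fun h => hne (by rw [h])
    have dv : M i ∣ t - t' := Int.dvd_of_emod_eq_zero (by
      rw [Int.sub_emod, e1, e2, sub_self, Int.zero_emod])
    have h2 : M i ≤ |t - t'| := by
      by_contra hcon
      push Not at hcon
      have z1 := Int.eq_zero_of_abs_lt_dvd dv hcon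
      exact htt (by omega)
    have h3 := hW t t'
    simp only [hM] at h2
    omega
  · exact Or.inr (Or.inl (hd j hp'.1 i hp.1 h))

end Pool.Agent.H60.Q1.Corn
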