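import Mathlib
import Pool.Agent.H60.Q1.Corn.Prob

set_option autoImplicit false
open Finset

/-! Corners: the recursion over the radius of the hole, summed over all scales. -/

namespace Pool.Agent.H60.Q1.Corn

open Pool.Agent.H75.Perc Pool.Agent.H75.TwoArm Pool.Agent.H75.Four Pool.Agent.H49.Perc
open Pool.Agent.H99.NC Pool.Agent.H60.Q1

/-- radii of the holes -/
def bs (lam ρ : ℤ) : ℕ → ℤ
  | 0 => ρ
  | k + 1 => lam * (bs lam ρ k + 1)

lemma bs_succ (lam ρ : ℤ) (k : ℕ) : bs lam ρ (k + 1) = lam * (bs lam ρ k + 1) := rfl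

lemma bs_nonneg {lam ρ : ℤ} (hl : 2 ≤ lam) (hρ : 0 ≤ ρ) (k : ℕ) : 0 ≤ bs lam ρ k := by
  induction k with
  | zero => exact hρ
  | succ k ih => rw [bs_succ]; nlinarith

lemma bs_step {lam ρ : ℤ} (hl : 2 ≤ lam) (hρ : 0 ≤ ρ) (k : ℕ) :
    2 * bs lam ρ k + 1 ≤ bs lam ρ (k + 1) := by
  have := bs_nonneg hl hρ k
  rw [bs_succ]; nlinarith

lemma bs_mono {lam ρ : ℤ} (hl : 2 ≤ lam) (hρ : 0 ≤ ρ) {k l : ℕ} (h : k ≤ l) :
    bs lam ρ k ≤ bs lam ρ l := by
  induction h with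
  | refl => exact le_rfl
  | @step m _ ih =>
    have h1 := bs_step hl hρ m
    have h2 := bs_nonneg hl hρ m
    change bs lam ρ k ≤ bs lam ρ (m + 1)
    omega

lemma bs_ge {lam ρ : ℤ} (hl : 2 ≤ lam) (hρ : 0 ≤ ρ) (k : ℕ) : (k : ℤ) ≤ bs lam ρ k := by
  induction k with
  | zero => exact hρ
  | succ k ih =>
    have h1 := bs_step hl hρ k
    have h2 := bs_nonneg hl hρ k
    push_cast
    omega

lemma bs_pow {lam ρ : ℤ} (hl : 2 ≤ lam) (hρ : 0 ≤ ρ) (k L : ℕ) :
    2 ^ L * bs lam ρ k ≤ bs lam ρ (k + L) := by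
  induction L with
  | zero => simp
  | succ L ih =>
    have h1 := bs_step hl hρ (k + L)
    rw [pow_succ, ← add_assoc]
    linarith

/-- summation of the recursion -/
lemma rec_sum (F s : ℕ → ℝ) (n : ℕ) {A B C : ℝ} (hA : 0 ≤ A) (hF0 : 0 ≤ F 0)
    (h : ∀ k < n, F k ≤ A * s k + (1 / 4) * F (k + 1)) (hs : ∑ k ∈ range n, s k ≤ B)
    (hC : F n ≤ C) : ∑ k ∈ range n, F k ≤ (4 / 3) * (A * B) + C / 3 := by
  have h1 : ∑ k ∈ range n, F k ≤ ∑ k ∈ range n, (A * s k + (1 / 4) * F (k + 1)) :=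
    sum_le_sum fun k hk => h k (mem_range.1 hk)
  rw [sum_add_distrib, ← mul_sum, ← mul_sum] at h1
  have h2 := sum_range_succ' F n
  rw [sum_range_succ] at h2
  have h3 := mul_le_mul_of_nonneg_left hs hA
  linarith

/-- **all scales**: `∑_k f_k ≤ C` -/
theorem corner_sum (lam K : ℤ) (hl : 2 ≤ lam) (hl3 : lam ≤ 3) (hK : 1 ≤ K) {c0 r : ℝ}
    (hc0 : 0 < c0) (hr0 : 0 ≤ r) (hr1 : r < 1) : ∃ C : ℝ, 0 < C ∧
    ∀ (q : ℤ × ℤ → ℝ), Pb q → ∀ (E : Finset (ℤ × ℤ)) (o : ℤ × ℤ) (N : ℤ), 1 ≤ N →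
    PrP q E (Arm1 o (2 * N) (8 * N)) ≤ r → ∀ (P : ℤ → ℤ × ℤ → Prop) (φ d : ℤ × ℤ → ℤ)
    (W : ℤ → ℤ × ℤ) (θ : ℤ → ℤ → ℤ) (I : Finset ℤ), (∀ t s : ℤ, |t - s| ≤ |(W t).2 - (W s).2|) →
    ((I.card : ℝ) ≤ 3 * N) →
    (∀ t ∈ I, ∀ a : ℤ, 2 ≤ a → 8 * (lam * a) ≤ N →
      nB (P t) q E o N (W t) (a - 1) ≤
        nD φ d q E o N (W t) (4 * (K * (lam * a))) (θ (lam * a) t) (2 * (lam * a))
          (8 * (K * (lam * a))) / c0 + nB (P t) q E o N (W t) (lam * a) * (1 / 16)) →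
    ∀ (ρ : ℤ) (n : ℕ), 1 ≤ ρ → 8 * bs lam ρ n ≤ N →
      ∑ k ∈ range n, (∑ t ∈ I, nB (P t) q E o N (W t) (bs lam ρ k)) / (bs lam ρ k + 1) ≤ C := by
  set L : ℕ := (4 * K).toNat with hL
  have hLK : (L : ℤ) = 4 * K := Int.toNat_of_nonneg (by omega)
  have hL1 : 1 ≤ L := by omega
  set C0 : ℝ := r / (1 - r) with hC0
  have hC0n : 0 ≤ C0 := div_nonneg hr0 (by linarith)
  set A : ℝ := (24 * (K : ℝ) + 1) / c0 with hA
  have hKR : (1 : ℝ) ≤ K := by exact_mod_cast hK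
  have hA0 : 0 ≤ A := div_nonneg (by linarith) hc0.le
  refine ⟨(4 / 3) * (A * (L * C0)) + (72 * C0) / 3 + 1, by positivity, ?_⟩
  intro q hq E o N hN hr P φ d W θ I hW hI hstep ρ n hρ1 hn
  have hρ : 0 ≤ ρ := by omega
  -- the largest index
  set n' := Nat.findGreatest (fun k => 8 * bs lam ρ k ≤ N) N.toNat with hn'
  have hnN : n ≤ N.toNat := by
    have := bs_ge hl hρ n
    omega
  have hP' : 8 * bs lam ρ n' ≤ N :=
    Nat.findGreatest_spec (P := fun k => 8 * bs lam ρ k ≤ N) hnN hn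
  have hnn' : n ≤ n' := Nat.le_findGreatest hnN hn
  have hmax : N < 8 * bs lam ρ (n' + 1) := by
    by_contra hcon
    push Not at hcon
    have h1 := bs_ge hl hρ (n' + 1)
    have h2 : n' + 1 ≤ N.toNat := by push_cast at h1; omega
    have h3 : n' + 1 ≤ n' := Nat.le_findGreatest h2 hcon
    omega
  set g : ℕ → ℝ := fun k => ∑ t ∈ I, nB (P t) q E o N (W t) (bs lam ρ k) with hg
  set F : ℕ → ℝ := fun k => g k / (bs lam ρ k + 1) with hF
  have hbR : ∀ k, (0 : ℝ) ≤ bs lam ρ k := fun k => by exact_mod_cast bs_nonneg hl hρ k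
  have hg0 : ∀ k, 0 ≤ g k := fun k => sum_nonneg fun _ _ => nB_nonneg hq
  have hF0 : ∀ k, 0 ≤ F k := fun k => div_nonneg (hg0 k) (by linarith [hbR k])
  -- marked clusters
  set S : ℕ → ℝ := fun k => ∑ t ∈ I, nD φ d q E o N (W t) (4 * (K * bs lam ρ (k + 1)))
    (θ (bs lam ρ (k + 1)) t) (2 * bs lam ρ (k + 1)) (8 * (K * bs lam ρ (k + 1))) with hS
  set s : ℕ → ℝ := fun k => S k / (2 * ((4 * (K * bs lam ρ (k + 1)) : ℤ) : ℝ) + 1) with hs
  have hS0 : ∀ k, 0 ≤ S k := fun k => sum_nonneg fun _ _ => nD_nonneg hq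
  have hrec : ∀ k < n', F k ≤ A * s k + (1 / 4) * F (k + 1) := by
    intro k hk
    have h1 : 8 * bs lam ρ (k + 1) ≤ N := by
      have := bs_mono hl hρ (show k + 1 ≤ n' by omega)
      omega
    have hk0 : 1 ≤ bs lam ρ k := hρ1.trans (bs_mono hl hρ (Nat.zero_le k))
    have h2 : g k ≤ S k / c0 + g (k + 1) * (1 / 16) := by
      simp only [hg, hS]
      rw [sum_div, sum_mul, ← sum_add_distrib]
      refine sum_le_sum fun t ht => ?_
      have h3 := hstep t ht (bs lam ρ k + 1) (by omega) (by rw [← bs_succ]; exact h1)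
      rw [← bs_succ, add_sub_cancel_right] at h3
      exact h3
    have hb1 : (0 : ℝ) < (bs lam ρ k : ℝ) + 1 := by linarith [hbR k]
    have hb2 : (0 : ℝ) < (bs lam ρ (k + 1) : ℝ) + 1 := by linarith [hbR (k + 1)]
    have hlR : (2 : ℝ) ≤ lam := by exact_mod_cast hl
    have hl3R : (lam : ℝ) ≤ 3 := by exact_mod_cast hl3
    have hbs : (bs lam ρ (k + 1) : ℝ) = lam * (bs lam ρ k + 1) := by
      rw [bs_succ]; push_cast; ring
    have h4 : (bs lam ρ (k + 1) : ℝ) + 1 ≤ 4 * (bs lam ρ k + 1) := by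
      rw [hbs]; nlinarith [hbR k]
    have h5 : g (k + 1) * (1 / 16) ≤ (1 / 4) * F (k + 1) * (bs lam ρ k + 1) := by
      have h6 : g (k + 1) = F (k + 1) * (bs lam ρ (k + 1) + 1) := by
        simp only [hF]
        rw [div_mul_cancel₀ _ hb2.ne']
      rw [h6]
      have := mul_le_mul_of_nonneg_left h4 (hF0 (k + 1))
      linarith
    set mm : ℝ := 2 * ((4 * (K * bs lam ρ (k + 1)) : ℤ) : ℝ) + 1 with hmm
    have hmm1 : mm ≤ (24 * K + 1) * (bs lam ρ k + 1) := by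
      rw [hmm]
      push_cast
      rw [hbs]
      nlinarith [hbR k, mul_nonneg (sub_nonneg.2 hl3R) (mul_nonneg (by linarith : (0 : ℝ) ≤ K) hb1.le)]
    have hmm0 : 0 < mm := by
      rw [hmm]
      push_cast
      have := hbR (k + 1)
      positivity
    have h7 : S k / c0 ≤ A * s k * (bs lam ρ k + 1) := by
      have h8 : S k = s k * mm := by
        simp only [hs]
        rw [div_mul_cancel₀ _ hmm0.ne']
      have hs0 : 0 ≤ s k := div_nonneg (hS0 k) hmm0.le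
      rw [div_le_iff₀ hc0, h8, hA]
      have h9 := mul_le_mul_of_nonneg_left hmm1 hs0
      have h10 : (24 * (K : ℝ) + 1) / c0 * s k * (bs lam ρ k + 1) * c0 =
          s k * ((24 * K + 1) * (bs lam ρ k + 1)) := by
        field_simp
      rw [h10]
      exact h9
    simp only [hF]
    rw [div_le_iff₀ hb1]
    calc g k ≤ S k / c0 + g (k + 1) * (1 / 16) := h2
      _ ≤ A * s k * (bs lam ρ k + 1) + (1 / 4) * F (k + 1) * (bs lam ρ k + 1) := add_le_add h7 h5
      _ = (A * s k + (1 / 4) * (g (k + 1) / (bs lam ρ (k + 1) + 1))) * (bs lam ρ k + 1) := by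
        simp only [hF]; ring
  -- the sum over the marked clusters
  have hsum : ∑ k ∈ range n', s k ≤ L * C0 := by
    have hmap : ∀ k ∈ range n', k % L ∈ range L := fun k _ => mem_range.2 (Nat.mod_lt _ hL1)
    rw [← sum_fiberwise_of_maps_to hmap]
    refine (sum_le_sum fun i _ => ?_).trans (by rw [sum_const, card_range, nsmul_eq_mul] :
      ∑ i ∈ range L, C0 ≤ L * C0)
    have h1 := count_avg (φ := φ) (d := d) hq hr hr1 ((range n').filter (fun k => k % L = i)) I W hW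
      (fun k => 4 * (K * bs lam ρ (k + 1))) (fun k => 2 * bs lam ρ (k + 1))
      (fun k => 8 * (K * bs lam ρ (k + 1))) (fun k t => θ (bs lam ρ (k + 1)) t)
      (fun j _ => by
        have := bs_nonneg hl hρ (j + 1)
        positivity) ?_
    · exact h1
    · intro k hk l hk' hkl
      rw [mem_filter] at hk hk'
      have h2 : k + L ≤ l := by
        have h3 : (l - k) % L = 0 := by
          have h4 : k ≡ l [MOD L] := hk.2.trans hk'.2.symm
          exact (Nat.sub_mod_eq_zero_of_mod_eq h4.symm)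
        have h4 := Nat.dvd_of_mod_eq_zero h3
        have h5 := Nat.le_of_dvd (by omega) h4
        omega
      have h3 := bs_pow hl hρ (k + 1) L
      have h4 := bs_mono hl hρ (show k + 1 + L ≤ l + 1 by omega)
      have h5 : (4 * K : ℤ) < 2 ^ L := by
        rw [← hLK]
        exact_mod_cast Nat.lt_two_pow_self
      have h6 : 1 ≤ bs lam ρ (k + 1) := by
        have h7 := bs_step hl hρ k
        have h8 := bs_nonneg hl hρ k
        omega
      have h9 : 4 * K * bs lam ρ (k + 1) < 2 ^ L * bs lam ρ (k + 1) :=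
        mul_lt_mul_of_pos_right h5 (by omega)
      linarith
  -- the last term
  have hlast : F n' ≤ 72 * C0 := by
    have hb1 : (0 : ℝ) < (bs lam ρ n' : ℝ) + 1 := by linarith [hbR n']
    simp only [hF]
    rw [div_le_iff₀ hb1]
    have h1 : g n' ≤ I.card * C0 := by
      simp only [hg]
      refine (sum_le_sum fun t _ => nB_le hq hr hr1).trans ?_
      rw [sum_const, nsmul_eq_mul]
    have h2 : (N : ℝ) ≤ 24 * (bs lam ρ n' + 1) := by
      have h3 : N ≤ 24 * (bs lam ρ n' + 1) := by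
        rw [bs_succ] at hmax
        have h4 := bs_nonneg hl hρ n'
        nlinarith
      exact_mod_cast h3
    calc g n' ≤ I.card * C0 := h1
      _ ≤ (3 * N) * C0 := mul_le_mul_of_nonneg_right hI hC0n
      _ ≤ (3 * (24 * (bs lam ρ n' + 1))) * C0 :=
        mul_le_mul_of_nonneg_right (by linarith) hC0n
      _ = 72 * C0 * (bs lam ρ n' + 1) := by ring
  have hmain := rec_sum F s n' hA0 (hF0 0) hrec hsum hlast
  have hsub : ∑ k ∈ range n, F k ≤ ∑ k ∈ range n', F k :=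
    sum_le_sum_of_subset_of_nonneg (range_mono hnn') fun k _ _ => hF0 k
  simp only [hF, hg] at hsub hmain ⊢
  linarith

end Pool.Agent.H60.Q1.Corn
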