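import Mathlib
import Pool.Agent.H60.Q1.Corn.Rec

set_option autoImplicit false
open Finset

/-!
# Power gain

A submultiplicative quantity `u ρ R` with `∑_k (R/ρ_k) u(ρ_k, R) ≤ C` over geometric scales
`ρ_k ≤ R` is at most `C' (ρ/R)^(1+α)`, `α > 0`.
-/

namespace Pool.Agent.H60.Q1.Corn

lemma bs_le {lam ρ : ℤ} (hl : 2 ≤ lam) (hl3 : lam ≤ 3) (hρ : 1 ≤ ρ) (k : ℕ) :
    bs lam ρ k + 2 ≤ 3 ^ (k + 1) * ρ := by
  have key : bs lam ρ k + 2 ≤ 3 ^ k * (ρ + 2) := by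
    induction k with
    | zero => simp [bs]
    | succ k ih =>
      have h1 := bs_nonneg hl (by omega : 0 ≤ ρ) k
      rw [bs_succ, pow_succ]
      nlinarith
  have h3 : (0 : ℤ) < 3 ^ k := by positivity
  rw [pow_succ]
  nlinarith

/-- from geometric decay to a power, base `Λ` -/
lemma pow_le_rpow' {Λ : ℝ} (hΛ : 1 < Λ) : ∃ α : ℝ, 0 < α ∧ ∀ (x : ℝ) (n : ℕ), 0 < x →
    x < Λ ^ (n + 1) → (1 / 2 : ℝ) ^ n ≤ 2 * x ^ (-α) := by
  have hl4 : 0 < Real.log Λ := Real.log_pos hΛ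
  have hl2 : 0 < Real.log 2 := Real.log_pos (by norm_num)
  have hΛ0 : 0 < Λ := by linarith
  refine ⟨Real.log 2 / Real.log Λ, div_pos hl2 hl4, fun x n hx hxn => ?_⟩
  set α := Real.log 2 / Real.log Λ with hα
  have hαpos : 0 < α := div_pos hl2 hl4
  have h4 : Λ ^ (-α) = 1 / 2 := by
    rw [Real.rpow_def_of_pos hΛ0, hα]
    rw [show Real.log Λ * -(Real.log 2 / Real.log Λ) = -Real.log 2 by field_simp]
    rw [Real.exp_neg, Real.exp_log (by norm_num)]
    norm_num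
  have e1 : (Λ ^ (n + 1)) ^ (-α) = (1 / 2) ^ (n + 1) := by
    rw [← Real.rpow_natCast, ← Real.rpow_mul hΛ0.le, mul_comm, Real.rpow_mul hΛ0.le,
      h4, Real.rpow_natCast]
  have e2 : (Λ ^ (n + 1)) ^ (-α) ≤ x ^ (-α) :=
    Real.rpow_le_rpow_of_nonpos hx hxn.le (by linarith)
  rw [e1, pow_succ] at e2
  linarith

/-- **power gain** -/
theorem power_gain (lam : ℤ) (hl : 2 ≤ lam) (hl3 : lam ≤ 3) {C : ℝ} (hC : 0 < C) :
    ∃ C' α : ℝ, 0 < C' ∧ 0 < α ∧ ∀ u : ℤ → ℤ → ℝ, (∀ ρ R, 0 ≤ u ρ R) → (∀ ρ R, u ρ R ≤ 1) →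
    (∀ ρ s R, 1 ≤ ρ → ρ ≤ s → s ≤ R → u ρ R ≤ u ρ s * u s R) →
    (∀ (N ρ : ℤ) (n : ℕ), 1 ≤ N → 1 ≤ ρ → 8 * bs lam ρ n ≤ N →
      ∑ k ∈ Finset.range n, (N : ℝ) * u (bs lam ρ k) (9 * N) / (bs lam ρ k + 1) ≤ C) →
    ∀ ρ R : ℤ, 1 ≤ ρ → ρ ≤ R → u ρ R ≤ C' * ((ρ : ℝ) / R) ^ (1 + α) := by
  set C1 : ℝ := 36 * C + 450 with hC1
  have hC1p : 0 < C1 := by positivity
  obtain ⟨n, hn⟩ := exists_nat_gt (72 * C * C1)
  have hnpos : 0 < (n : ℝ) := lt_trans (by positivity) hn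
  have hn1 : 1 ≤ n := by
    have : 0 < n := by exact_mod_cast hnpos
    omega
  set L : ℤ := 72 * 3 ^ (n + 1) with hL
  have h3 : (1 : ℤ) ≤ 3 ^ (n + 1) := one_le_pow₀ (by norm_num)
  have hL1 : 72 ≤ L := by omega
  have hLR : (1 : ℝ) < L := by exact_mod_cast (by omega : (1 : ℤ) < L)
  obtain ⟨α, hα, hpow⟩ := pow_le_rpow' hLR
  refine ⟨2 * C1, α, by positivity, hα, ?_⟩
  intro u hu0 hu1 hmul hsum
  -- step A
  have hA : ∀ ρ R : ℤ, 1 ≤ ρ → ρ ≤ R → u ρ R ≤ C1 * ρ / R := by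
    intro ρ R hρ hρR
    have hρR' : (1 : ℝ) ≤ ρ := by exact_mod_cast hρ
    have hRR : (ρ : ℝ) ≤ R := by exact_mod_cast hρR
    have hR0 : (0 : ℝ) < R := by linarith
    rw [le_div_iff₀ hR0]
    by_cases hcase : 8 * bs lam ρ 1 ≤ R / 9
    · set N := R / 9 with hN
      have hb0 : bs lam ρ 0 = ρ := rfl
      have hb1 : 2 * ρ + 1 ≤ bs lam ρ 1 := by
        have := bs_step hl (by omega : 0 ≤ ρ) 0
        rw [hb0] at this
        exact this
      have hN1 : 1 ≤ N := by omega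
      have h1 := hsum N ρ 1 hN1 hρ hcase
      rw [Finset.sum_range_one, hb0] at h1
      have h2 : u ρ R ≤ u ρ (9 * N) := by
        have h4 := hmul ρ (9 * N) R hρ (by omega) (by omega)
        have h5 := mul_le_mul_of_nonneg_left (hu1 (9 * N) R) (hu0 ρ (9 * N))
        linarith
      have hNR : (R : ℝ) ≤ 18 * N := by exact_mod_cast (by omega : R ≤ 18 * N)
      have hN0 : (0 : ℝ) < N := by exact_mod_cast (by omega : (0 : ℤ) < N)
      rw [div_le_iff₀ (by linarith)] at h1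
      calc u ρ R * R ≤ u ρ (9 * N) * (18 * N) :=
            mul_le_mul h2 hNR hR0.le (hu0 _ _)
        _ = 18 * (N * u ρ (9 * N)) := by ring
        _ ≤ 18 * (C * (ρ + 1)) := by linarith
        _ ≤ C1 * ρ := by rw [hC1]; nlinarith
    · push Not at hcase
      have h1 : bs lam ρ 1 ≤ 6 * ρ := by
        change lam * (ρ + 1) ≤ 6 * ρ
        nlinarith
      have h2 : R < 450 * ρ := by omega
      have h4 : (R : ℝ) ≤ 450 * ρ := by exact_mod_cast h2.le
      calc u ρ R * R ≤ 1 * (450 * ρ) := mul_le_mul (hu1 _ _) h4 hR0.le zero_le_one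
        _ ≤ C1 * ρ := by rw [hC1]; nlinarith
  -- step B
  have hB : ∀ ρ R : ℤ, 1 ≤ ρ → L * ρ ≤ R → u ρ R ≤ (1 / 2) * ρ / R := by
    intro ρ R hρ hR
    have hρR' : (1 : ℝ) ≤ ρ := by exact_mod_cast hρ
    have hR1 : ρ ≤ R := by nlinarith
    have hR0 : (0 : ℝ) < R := by
      have : (ρ : ℝ) ≤ R := by exact_mod_cast hR1
      linarith
    set N := R / 9 with hN
    have hbn := bs_le hl hl3 hρ n
    have h8 : 8 * bs lam ρ n ≤ N := by
      have h9 : 72 * (3 ^ (n + 1) * ρ) ≤ R := by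
        rw [hL] at hR
        linarith
      omega
    have hN1 : 1 ≤ N := by
      have := bs_ge hl (by omega : 0 ≤ ρ) n
      omega
    have hN0 : (0 : ℝ) < N := by exact_mod_cast (by omega : (0 : ℤ) < N)
    have h1 := hsum N ρ n hN1 hρ h8
    obtain ⟨k, hk, hk2⟩ : ∃ k ∈ Finset.range n,
        (N : ℝ) * u (bs lam ρ k) (9 * N) / (bs lam ρ k + 1) ≤ C / n := by
      by_contra hcon
      push Not at hcon
      have h2 := Finset.sum_lt_sum_of_nonempty (Finset.nonempty_range_iff.2 (by omega)) hcon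
      rw [Finset.sum_const, Finset.card_range, nsmul_eq_mul, mul_div_cancel₀ _ hnpos.ne'] at h2
      linarith
    rw [Finset.mem_range] at hk
    set s := bs lam ρ k with hs
    have hρs : ρ ≤ s := by
      have := bs_mono hl (by omega : 0 ≤ ρ) (Nat.zero_le k)
      exact this
    have hsn : s ≤ bs lam ρ n := bs_mono hl (by omega : 0 ≤ ρ) hk.le
    have hs1 : (1 : ℝ) ≤ s := by exact_mod_cast (by omega : 1 ≤ s)
    have h2 : u s R ≤ u s (9 * N) := by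
      have h4 := hmul s (9 * N) R (by omega) (by omega) (by omega)
      have h5 := mul_le_mul_of_nonneg_left (hu1 (9 * N) R) (hu0 s (9 * N))
      linarith
    have h4 := hmul ρ s R hρ hρs (by omega)
    have h5 := hA ρ s hρ hρs
    have hNR : (R : ℝ) ≤ 18 * N := by exact_mod_cast (by omega : R ≤ 18 * N)
    rw [div_le_iff₀ (by linarith)] at hk2
    have h6 : u s R * R ≤ 36 * (C / n) * s := by
      have hCn : 0 < C / n := by positivity
      calc u s R * R ≤ u s (9 * N) * (18 * N) := mul_le_mul h2 hNR hR0.le (hu0 _ _)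
        _ = 18 * (N * u s (9 * N)) := by ring
        _ ≤ 18 * (C / n * (s + 1)) := by linarith
        _ ≤ 36 * (C / n) * s := by nlinarith
    rw [le_div_iff₀ hR0]
    rw [le_div_iff₀ (by linarith)] at h5
    have h7 : u ρ R * R ≤ u ρ s * (36 * (C / n) * s) := by
      calc u ρ R * R ≤ (u ρ s * u s R) * R := mul_le_mul_of_nonneg_right h4 hR0.le
        _ = u ρ s * (u s R * R) := by ring
        _ ≤ _ := mul_le_mul_of_nonneg_left h6 (hu0 _ _)
    calc u ρ R * R ≤ u ρ s * (36 * (C / n) * s) := h7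
      _ = (u ρ s * s) * (36 * (C / n)) := by ring
      _ ≤ (C1 * ρ) * (36 * (C / n)) := mul_le_mul_of_nonneg_right h5 (by positivity)
      _ = (36 * C * C1) / n * ρ := by ring
      _ ≤ (1 / 2) * ρ := by
        refine mul_le_mul_of_nonneg_right ?_ (by linarith)
        rw [div_le_iff₀ hnpos]
        linarith
  -- step C
  have hCm : ∀ (ρ : ℤ) (m : ℕ), 1 ≤ ρ → u ρ (L ^ m * ρ) ≤ (1 / 2) ^ m / (L : ℝ) ^ m := by
    intro ρ m hρ
    induction m with
    | zero => simpa using hu1 _ _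
    | succ m ih =>
      have hLm : (1 : ℤ) ≤ L ^ m := one_le_pow₀ (by omega)
      have h1 := hmul ρ (L ^ m * ρ) (L ^ (m + 1) * ρ) hρ (by nlinarith) (by
        rw [pow_succ]; nlinarith [mul_pos (by omega : (0 : ℤ) < L ^ m) (by omega : (0 : ℤ) < ρ)])
      have h2 := hB (L ^ m * ρ) (L ^ (m + 1) * ρ) (by nlinarith) (by rw [pow_succ]; linarith)
      have hρ0 : (0 : ℝ) < ρ := by exact_mod_cast (by omega : (0 : ℤ) < ρ)
      have hL0 : (0 : ℝ) < L := by linarith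
      have e : (1 / 2 : ℝ) * ((L ^ m * ρ : ℤ) : ℝ) / ((L ^ (m + 1) * ρ : ℤ) : ℝ) = (1 / 2) / L := by
        push_cast
        rw [pow_succ]
        field_simp
      rw [e] at h2
      refine h1.trans ((mul_le_mul ih h2 (hu0 _ _) (by positivity)).trans (le_of_eq ?_))
      rw [pow_succ, pow_succ]
      field_simp
  -- conclusion
  intro ρ R hρ hρR
  have hρR' : (1 : ℝ) ≤ ρ := by exact_mod_cast hρ
  have hρ0 : (0 : ℝ) < ρ := by linarith
  have hRR : (ρ : ℝ) ≤ R := by exact_mod_cast hρR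
  have hR0 : (0 : ℝ) < R := by linarith
  have hL0 : (0 : ℝ) < L := by linarith
  obtain ⟨m, hm1, hm2⟩ : ∃ m : ℕ, L ^ m * ρ ≤ R ∧ R < L ^ (m + 1) * ρ := by
    have hex : ∃ m : ℕ, R < L ^ (m + 1) * ρ := by
      obtain ⟨m, hm⟩ := pow_unbounded_of_one_lt R (by omega : (1 : ℤ) < L)
      refine ⟨m, ?_⟩
      have hLm : (1 : ℤ) ≤ L ^ m := one_le_pow₀ (by omega)
      rw [pow_succ]
      nlinarith [mul_le_mul hLm hρ (by omega) (by omega : (0 : ℤ) ≤ L ^ m)]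
    classical
    refine ⟨Nat.find hex, ?_, Nat.find_spec hex⟩
    rcases Nat.eq_zero_or_pos (Nat.find hex) with h0 | h0
    · rw [h0]; simpa using hρR
    · have := Nat.find_min hex (m := Nat.find hex - 1) (by omega)
      rw [Nat.sub_add_cancel h0] at this
      omega
  have hLm : (1 : ℤ) ≤ L ^ m := one_le_pow₀ (by omega)
  have h1 := hmul ρ (L ^ m * ρ) R hρ (by nlinarith) hm1
  have h2 := hA (L ^ m * ρ) R (by nlinarith) hm1
  have h4 := mul_le_mul (hCm ρ m hρ) h2 (hu0 _ _) (by positivity)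
  have hx0 : 0 < (R : ℝ) / ρ := by positivity
  have h5 := hpow ((R : ℝ) / ρ) m hx0 (by
    rw [div_lt_iff₀ hρ0]
    exact_mod_cast hm2)
  have e1 : ((R : ℝ) / ρ) ^ (-α) = ((ρ : ℝ) / R) ^ α := by
    rw [Real.rpow_neg hx0.le, ← Real.inv_rpow hx0.le, inv_div]
  rw [e1] at h5
  have e2 : ((ρ : ℝ) / R) ^ (1 + α) = (ρ / R) * (ρ / R) ^ α := by
    rw [Real.rpow_add (by positivity), Real.rpow_one]
  have hLmR : (0 : ℝ) < (L : ℝ) ^ m := by positivity
  calc u ρ R ≤ u ρ (L ^ m * ρ) * u (L ^ m * ρ) R := h1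
    _ ≤ (1 / 2) ^ m / (L : ℝ) ^ m * (C1 * ((L ^ m * ρ : ℤ) : ℝ) / R) := h4
    _ = (1 / 2) ^ m * (C1 * (ρ / R)) := by
      push_cast
      field_simp
    _ ≤ (2 * (ρ / R) ^ α) * (C1 * (ρ / R)) :=
      mul_le_mul_of_nonneg_right h5 (by positivity)
    _ = 2 * C1 * (ρ / R) ^ (1 + α) := by rw [e2]; ring

end Pool.Agent.H60.Q1.Corn
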