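import Mathlib
import Pool.Agent.H99.NC.RingP
import Pool.Agent.H99.NC.DualP
import Pool.Agent.H75.Perc.VGeo

set_option autoImplicit false
open Finset

/-! Tools: closed crossings at density one half, Harris inequality for decreasing events, bands. -/

namespace Pool.Agent.H60.Q1.Corn

open Pool.Agent.H75.Perc Pool.Agent.H99.NC

/-- density one half -/
noncomputable abbrev hf : ℤ × ℤ → ℝ := fun _ => 1 / 2

lemma hf_Pb : Pb hf := fun _ => by norm_num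

lemma hf_Qh : Qh hf := fun _ => by norm_num

/-- **closed crossings**: at density one half a rectangle without open crossing has probability
bounded below, in every domain -/
theorem dual_half (k : ℕ) : ∃ c : ℝ, 0 < c ∧ ∀ (E : Finset (ℤ × ℤ)) (a b x y : ℤ),
    a ≤ b → x ≤ y →
    (a < b → y - x ≤ k * (b - a) → c ≤ 1 - PrP hf E (HC a b x y)) ∧
    (x < y → b - a ≤ k * (y - x) → c ≤ 1 - PrP hf E (VC a b x y)) := by
  obtain ⟨c, hc, h⟩ := rswP_half (k + 1)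
  have key : ∀ W H : ℤ, 1 ≤ W → 0 ≤ H → H ≤ k * W → c ≤ 1 - fcP (1 / 2) W H := by
    intro W H hW hH hWH
    obtain ⟨w, rfl⟩ : ∃ w : ℕ, W = w + 1 := ⟨(W - 1).toNat, by omega⟩
    obtain ⟨m, rfl⟩ : ∃ m : ℕ, H = m := ⟨H.toNat, by omega⟩
    have h1 := fcP_dual (1 / 2) w m
    rw [show (1 : ℝ) - 1 / 2 = 1 / 2 by norm_num] at h1
    have h2 := h (1 / 2) le_rfl (by norm_num) ((m : ℤ) + 1) w (by omega) (by omega)
      (by push_cast; linarith)
    linarith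
  refine ⟨c, hc, fun E a b x y hab hxy => ⟨fun hlt h1 => ?_, fun hlt h1 => ?_⟩⟩
  · have e1 : PrP hf E (HC a b x y) ≤ PrP hf (E ∪ Bx a b x y) (HC a b x y) :=
      PrP_inc hf_Pb subset_union_left (HC_inc a b x y)
    have e2 : PrP hf (E ∪ Bx a b x y) (HC a b x y) = fcP (1 / 2) (b - a) (y - x) :=
      PrP_HC' (1 / 2) subset_union_right
    rw [e2] at e1
    have e3 := key (b - a) (y - x) (by omega) (by omega) h1
    linarith
  · have e1 : PrP hf E (VC a b x y) ≤ PrP hf (E ∪ Bx a b x y) (VC a b x y) :=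
      PrP_inc hf_Pb subset_union_left (VC_inc a b x y)
    have e2 : PrP hf (E ∪ Bx a b x y) (VC a b x y) = fcP (1 / 2) (y - x) (b - a) :=
      PrP_VC (1 / 2) subset_union_right
    rw [e2] at e1
    have e3 := key (y - x) (b - a) (by omega) (by omega) h1
    linarith

/-- Harris inequality, decreasing events -/
theorem harris_not {α : Type*} [DecidableEq α] {q : α → ℝ} (hq : Pb q) (E : Finset α)
    {A B : Finset α → Prop} (hA : Inc A) (hB : Inc B) :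
    (1 - PrP q E A) * (1 - PrP q E B) ≤ 1 - PrP q E (fun ω => A ω ∨ B ω) := by
  have h1 := PrP_harris hq E hA hB
  have h2 : PrP q E (fun ω => A ω ∨ B ω) =
      PrP q E A + PrP q E (fun ω => B ω ∧ ¬ A ω) := by
    rw [← PrP_add_disj (fun ω _ h h' => h'.2 h)]
    exact PrP_congr fun ω _ => by tauto
  have h3 : PrP q E B = PrP q E (fun ω => A ω ∧ B ω) + PrP q E (fun ω => B ω ∧ ¬ A ω) := by
    rw [← PrP_add_disj (fun ω _ h h' => h'.2 h.1)]
    exact PrP_congr fun ω _ => by tauto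
  nlinarith

lemma Inc.or' {α : Type*} [DecidableEq α] {A B : Finset α → Prop} (hA : Inc A) (hB : Inc B) :
    Inc (fun ω => A ω ∨ B ω) := fun ω ω' h h1 => h1.imp (hA ω ω' h) (hB ω ω' h)

/-- four decreasing events -/
theorem harris_not4 {α : Type*} [DecidableEq α] {q : α → ℝ} (hq : Pb q) (E : Finset α)
    {A B C D : Finset α → Prop} (hA : Inc A) (hB : Inc B) (hC : Inc C) (hD : Inc D)
    {a b c d : ℝ} (ha : 0 ≤ a) (hb : 0 ≤ b) (hc : 0 ≤ c) (hd : 0 ≤ d)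
    (h1 : a ≤ 1 - PrP q E A) (h2 : b ≤ 1 - PrP q E B) (h3 : c ≤ 1 - PrP q E C)
    (h4 : d ≤ 1 - PrP q E D) :
    (a * b) * (c * d) ≤ PrP q E (fun ω => ¬ A ω ∧ ¬ B ω ∧ ¬ C ω ∧ ¬ D ω) := by
  have e1 := harris_not hq E hA hB
  have e2 := harris_not hq E hC hD
  have e3 := harris_not hq E (Inc.or' hA hB) (Inc.or' hC hD)
  have e4 : PrP q E (fun ω => ¬ A ω ∧ ¬ B ω ∧ ¬ C ω ∧ ¬ D ω) =
      1 - PrP q E (fun ω => (A ω ∨ B ω) ∨ (C ω ∨ D ω)) := by
    rw [← PrP_not]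
    exact PrP_congr fun ω _ => by tauto
  rw [e4]
  have m1 := (mul_le_mul h1 h2 hb (ha.trans h1)).trans e1
  have m2 := (mul_le_mul h3 h4 hd (hc.trans h3)).trans e2
  exact (mul_le_mul m1 m2 (by positivity) (le_trans (by positivity) m1)).trans e3

/-- five decreasing events -/
theorem harris_not5 {α : Type*} [DecidableEq α] {q : α → ℝ} (hq : Pb q) (E : Finset α)
    {A B C D F : Finset α → Prop} (hA : Inc A) (hB : Inc B) (hC : Inc C) (hD : Inc D) (hF : Inc F)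
    {a b c d f : ℝ} (ha : 0 ≤ a) (hb : 0 ≤ b) (hc : 0 ≤ c) (hd : 0 ≤ d) (hf : 0 ≤ f)
    (h1 : a ≤ 1 - PrP q E A) (h2 : b ≤ 1 - PrP q E B) (h3 : c ≤ 1 - PrP q E C)
    (h4 : d ≤ 1 - PrP q E D) (h5 : f ≤ 1 - PrP q E F) :
    (a * b) * (c * d) * f ≤ PrP q E (fun ω => ¬ A ω ∧ ¬ B ω ∧ ¬ C ω ∧ ¬ D ω ∧ ¬ F ω) := by
  have e1 := harris_not hq E hA hB
  have e2 := harris_not hq E hC hD
  have e3 := harris_not hq E (Inc.or' hA hB) (Inc.or' hC hD)
  have e5 := harris_not hq E (Inc.or' (Inc.or' hA hB) (Inc.or' hC hD)) hF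
  have e4 : PrP q E (fun ω => ¬ A ω ∧ ¬ B ω ∧ ¬ C ω ∧ ¬ D ω ∧ ¬ F ω) =
      1 - PrP q E (fun ω => ((A ω ∨ B ω) ∨ (C ω ∨ D ω)) ∨ F ω) := by
    rw [← PrP_not]
    exact PrP_congr fun ω _ => by tauto
  rw [e4]
  have m1 := (mul_le_mul h1 h2 hb (ha.trans h1)).trans e1
  have m2 := (mul_le_mul h3 h4 hd (hc.trans h3)).trans e2
  have m3 := (mul_le_mul m1 m2 (by positivity) (le_trans (by positivity) m1)).trans e3
  exact (mul_le_mul m3 h5 hf (le_trans (by positivity) m3)).trans e5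

/-! ### bands -/

variable {η : Finset (ℤ × ℤ)} {X : ℤ × ℤ → Prop} {p q : ℤ × ℤ} {a b x y : ℤ}

/-- a path which descends through a band crosses it vertically -/
lemma band_V (h : CoX η X p q) (hp : X p) (hpy : y ≤ p.2) (hqx : q.2 ≤ x) (hxy : x < y)
    (hX : ∀ v, X v → a ≤ v.1 ∧ v.1 ≤ b) : VC a b x y η := by
  obtain ⟨z, z', h1, h2, h3, h4, h5⟩ := exit_cox (Y := fun v => x + 1 ≤ v.2) h (by omega)
    (by omega)
  have hu := unit_cases h4.1
  have hz' : z'.2 = x := by omega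
  have hXz : X z := (CoX.mem (X := fun w => X w ∧ x + 1 ≤ w.2) h5 ⟨hp, by omega⟩).1
  have h6 : CoX η (fun v => X v ∧ x ≤ v.2) z' p :=
    Relation.ReflTransGen.head ⟨h4.symm, hXz, by omega⟩
      ((CoX.symm h5 ⟨hp, by omega⟩).mono2 fun v hv => ⟨hv.1, by omega⟩)
  obtain ⟨t, t', g1, g2, g3, g4, g5⟩ := exit_cox (Y := fun v => v.2 ≤ y - 1) h6 (by omega)
    (by omega)
  have hu' := unit_cases g4.1
  have ht' : t'.2 = y := by omega
  have g6 : CoX η (fun v => (a ≤ v.1 ∧ v.1 ≤ b) ∧ (x ≤ v.2 ∧ v.2 ≤ y)) z' t' := by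
    refine Relation.ReflTransGen.tail (g5.mono2 fun v hv => ⟨hX v hv.1.1, hv.1.2, by omega⟩)
      ⟨g4, hX _ g3.1, g3.2, by omega⟩
  have hz'B : inB a b x y z' := ⟨hX z' h3, by omega, by omega⟩
  exact ⟨z', t', hz'B, hz', ht', CoX.box (fun v hv => hv) g6 hz'B⟩

/-- a path which goes through a band from left to right crosses it horizontally -/
lemma band_H (h : CoX η X p q) (hp : X p) (hpa : p.1 ≤ a) (hqb : b ≤ q.1) (hab : a < b)
    (hX : ∀ v, X v → x ≤ v.2 ∧ v.2 ≤ y) : HC a b x y η := by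
  obtain ⟨z, z', h1, h2, h3, h4, h5⟩ := exit_cox (Y := fun v => v.1 ≤ b - 1) h (by omega)
    (by omega)
  have hu := unit_cases h4.1
  have hz' : z'.1 = b := by omega
  have hXz : X z := (CoX.mem (X := fun w => X w ∧ w.1 ≤ b - 1) h5 ⟨hp, by omega⟩).1
  have h6 : CoX η (fun v => X v ∧ v.1 ≤ b) z' p :=
    Relation.ReflTransGen.head ⟨h4.symm, hXz, by omega⟩
      ((CoX.symm h5 ⟨hp, by omega⟩).mono2 fun v hv => ⟨hv.1, by omega⟩)
  obtain ⟨t, t', g1, g2, g3, g4, g5⟩ := exit_cox (Y := fun v => a + 1 ≤ v.1) h6 (by omega)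
    (by omega)
  have hu' := unit_cases g4.1
  have ht' : t'.1 = a := by omega
  have g6 : CoX η (fun v => (a ≤ v.1 ∧ v.1 ≤ b) ∧ (x ≤ v.2 ∧ v.2 ≤ y)) z' t' := by
    refine Relation.ReflTransGen.tail (g5.mono2 fun v hv => ⟨⟨by omega, hv.1.2⟩, hX v hv.1.1⟩)
      ⟨g4, ⟨by omega, g3.2⟩, hX _ g3.1⟩
  have hz'B : inB a b x y z' := ⟨⟨by omega, by omega⟩, hX z' h3⟩
  have ht'B : inB a b x y t' := ⟨⟨by omega, by omega⟩, hX t' g3.1⟩
  exact ⟨t', z', ht'B, ht', hz', (CoX.box (fun v hv => hv) g6 hz'B).symm⟩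

/-- from right to left -/
lemma band_H' (h : CoX η X p q) (hp : X p) (hpa : b ≤ p.1) (hqb : q.1 ≤ a) (hab : a < b)
    (hX : ∀ v, X v → x ≤ v.2 ∧ v.2 ≤ y) : HC a b x y η :=
  band_H (CoX.symm h hp) (CoX.mem h hp) hqb hpa hab hX

/-- from below to above -/
lemma band_V' (h : CoX η X p q) (hp : X p) (hpy : p.2 ≤ x) (hqx : y ≤ q.2) (hxy : x < y)
    (hX : ∀ v, X v → a ≤ v.1 ∧ v.1 ≤ b) : VC a b x y η :=
  band_V (CoX.symm h hp) (CoX.mem h hp) hqx hpy hxy hX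

end Pool.Agent.H60.Q1.Corn
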