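import Mathlib
import Pool.Agent.H60.Q1.Corn.Pow
import Pool.Agent.H60.Q1.Corn.Tools
import Pool.Agent.H20.Q1.Sharp

set_option autoImplicit false
open Finset

/-!
# Corners: the annulus events

`P w` : strict inside of the domain with corner `w`; `dm w` : labels of the domain. `AG dm w ρ R` : labels
of the domain in the annulus. `UG P dm w ρ R` : an open cluster of the annulus crosses it and stays in the
strict inside.
-/

namespace Pool.Agent.H60.Q1.Corn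

open Pool.Agent.H75.Perc Pool.Agent.H75.TwoArm Pool.Agent.H75.Four Pool.Agent.H49.Perc
open Pool.Agent.H99.NC Pool.Agent.H60.Q1
open Pool.Agent.H20.Q1 (Sph mem_Sph BR_mono BR_ends BR_of_ends box_or_exit last_exit)

/-- labels of the domain in the annulus -/
noncomputable def AG (dm : ℤ × ℤ → ℤ × ℤ → Prop) (w : ℤ × ℤ) (ρ R : ℤ) : Finset (ℤ × ℤ) :=
  by classical exact (BR w R \ BR w ρ).filter (fun l => dm w l)

/-- an open cluster of the annulus crosses it and stays strictly inside the domain -/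
def UG (P : ℤ × ℤ → ℤ × ℤ → Prop) (dm : ℤ × ℤ → ℤ × ℤ → Prop) (w : ℤ × ℤ) (ρ R : ℤ)
    (ω : Finset (ℤ × ℤ)) : Prop :=
  ∃ u v, Near w ρ u ∧ Far w R v ∧ Co (ω ∩ AG dm w ρ R) u v ∧ ∀ y, Co (ω ∩ AG dm w ρ R) u y → P w y

variable {P : ℤ × ℤ → ℤ × ℤ → Prop} {dm : ℤ × ℤ → ℤ × ℤ → Prop} {w o : ℤ × ℤ} {ρ R N : ℤ}
  {E ω : Finset (ℤ × ℤ)}

lemma mem_AG {l : ℤ × ℤ} : l ∈ AG dm w ρ R ↔ (l ∈ BR w R ∧ l ∉ BR w ρ) ∧ dm w l := by
  classical
  unfold AG
  rw [mem_filter, mem_sdiff]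

/-- from the annulus to the hole -/
theorem UG_Bq (hρN : ρ ≤ N) (hN : 1 ≤ N) (hR : 9 * N ≤ R) (hw : inR o N w) (hE : E ⊆ BR o (8 * N))
    (hdE : ∀ l, l ∈ BR o (8 * N) → dm w l → l ∈ E)
    (hEd : ∀ y z : ℤ × ℤ, IsUnit4 (z - y) → y + z ∈ E → P w y → dm w (y + z))
    (h : UG P dm w ρ R ω) : ∃ x ∈ Sph o (2 * N), Bq (P w) E o N w ρ x (ω ∩ E) := by
  obtain ⟨u, v, hu, hv, huv, hcu⟩ := h
  set a := AG dm w ρ R with ha
  rw [inR_iff] at hw
  have hu' := hu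
  unfold Near at hu'
  rw [abs_le, abs_le] at hu'
  have huo : |u.1 - o.1| < 8 * N ∧ |u.2 - o.2| < 8 * N := by
    rw [abs_lt, abs_lt]; omega
  have hvo : 8 * N ≤ |v.1 - o.1| ∨ 8 * N ≤ |v.2 - o.2| := by
    unfold Far at hv
    rw [le_abs, le_abs] at hv ⊢
    omega
  obtain ⟨v', hv', h1⟩ := open_exit huv huo hvo
  have haE : a ∩ BR o (8 * N) ⊆ E := by
    intro l hl
    obtain ⟨g1, g2⟩ := mem_inter.1 hl
    rw [ha, mem_AG] at g1
    exact hdE l g2 g1.2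
  have h2 : Co (ω ∩ a ∩ E) u v' := by
    refine h1.mono fun l hl => ?_
    obtain ⟨g1, g2⟩ := mem_inter.1 hl
    exact mem_inter.2 ⟨g1, haE (mem_inter.2 ⟨(mem_inter.1 g1).2, g2⟩)⟩
  have hρ2 : BR w ρ ⊆ BR o (2 * N) := by
    unfold BR
    exact Bx_sub (by omega) (by omega) (by omega) (by omega)
  -- last exit from the box of radius `2N`
  obtain ⟨z, z', h3, h4, h5, h6, h7⟩ := exit_co (X := fun y => ¬ inR o (2 * N) y) h2.symm
    (by rw [inR_iff]; rw [le_abs, le_abs] at hv'; omega) (by rw [inR_iff]; omega)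
  rw [not_not] at h4
  have hz' : z' ∈ Sph o (2 * N) := by
    rw [mem_Sph, abs_le, abs_le, le_abs, le_abs]
    have := unit_cases h5.1
    rw [inR_iff] at h3 h4
    omega
  have hout : ∀ y, CoX (ω ∩ a ∩ E) (fun y => ¬ inR o (2 * N) y) v' y →
      Co (ω ∩ (E \ BR o (2 * N))) v' y := by
    intro y hy
    induction hy with
    | refl => exact Co.refl _ _
    | @tail p r _ hpr ih =>
      obtain ⟨g1, g2⟩ := mem_inter.1 hpr.1.2
      obtain ⟨g3, g4⟩ := mem_inter.1 g1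
      refine ih.tail ⟨hpr.1.1, mem_inter.2 ⟨g3, mem_sdiff.2 ⟨g2, fun hl => hpr.2 ?_⟩⟩⟩
      exact (BR_ends hpr.1.1 hl).2
  have h8 : Co (ω ∩ (E \ BR o (2 * N))) v' z' := by
    obtain ⟨g1, g2⟩ := mem_inter.1 h5.2
    obtain ⟨g3, g4⟩ := mem_inter.1 g1
    refine (hout z h6).tail ⟨h5.1, mem_inter.2 ⟨g3, mem_sdiff.2 ⟨g2, fun hl => h3 ?_⟩⟩⟩
    exact (BR_ends h5.1 hl).1
  -- the first vertex on the sphere
  classical
  obtain ⟨x, hx, hmin⟩ := exists_min_image ((Sph o (2 * N)).filter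
    (fun y => Co (ω ∩ (E \ BR o (2 * N))) z' y)) (fun y => Encodable.encode y)
    ⟨z', mem_filter.2 ⟨hz', Co.refl _ _⟩⟩
  rw [mem_filter] at hx
  have hNρ : E \ BR o (2 * N) ⊆ E \ BR w ρ := out_mono' hρ2
  have hxu : Co (ω ∩ (E \ BR w ρ)) x u := by
    have g1 : Co (ω ∩ (E \ BR w ρ)) x z' := (hx.2.mono (inter_subset_inter_left hNρ)).symm
    refine g1.trans ((h7.symm.trans h2.symm).mono ?_)
    intro l hl
    obtain ⟨g1, g2⟩ := mem_inter.1 hl
    obtain ⟨g3, g4⟩ := mem_inter.1 g1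
    rw [ha, mem_AG] at g4
    exact mem_inter.2 ⟨g3, mem_sdiff.2 ⟨g2, g4.1.2⟩⟩
  have hωE : ∀ F : Finset (ℤ × ℤ), ω ∩ E ∩ (E \ F) = ω ∩ (E \ F) := by
    intro F
    ext l
    simp only [mem_inter, mem_sdiff]
    tauto
  refine ⟨x, hx.1, ⟨⟨v', hv', ?_⟩, ?_⟩, ⟨u, ?_, ?_⟩, ?_⟩
  · rw [hωE]
    exact (hx.2.symm).trans h8.symm
  · intro y hy hxy
    rw [hωE] at hxy
    exact hmin y (mem_filter.2 ⟨hy, hx.2.trans hxy⟩)
  · rw [inR_iff]; omega
  · rw [hωE]; exact hxu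
  · intro y hy
    rw [hωE] at hy
    have key : ∀ y, Co (ω ∩ (E \ BR w ρ)) u y → Co (ω ∩ a) u y ∧ P w y := by
      intro y hy
      induction hy with
      | refl => exact ⟨Co.refl _ _, hcu u (Co.refl _ _)⟩
      | @tail p r _ hpr ih =>
        obtain ⟨g1, g2⟩ := mem_inter.1 hpr.2
        obtain ⟨g3, g4⟩ := mem_sdiff.1 g2
        have g5 : p + r ∈ BR w R := by
          have g6 := hE g3
          unfold BR at g6 ⊢
          exact Bx_sub (by omega) (by omega) (by omega) (by omega) g6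
        have g6 : Co (ω ∩ a) u r := ih.1.tail ⟨hpr.1, mem_inter.2 ⟨g1, by
          rw [ha, mem_AG]
          exact ⟨⟨g5, g4⟩, hEd p r hpr.1 g3 ih.2⟩⟩⟩
        exact ⟨g6, hcu r g6⟩
    exact (key y (hxu.symm.trans hy)).2

/-! ### translation invariance -/

/-- `P` and `dm` are translation invariant -/
def TI (P dm : ℤ × ℤ → ℤ × ℤ → Prop) : Prop :=
  (∀ w t v : ℤ × ℤ, P (w + t) (v + t) ↔ P w v) ∧
  (∀ w t l : ℤ × ℤ, dm (w + t) l ↔ dm w (l - (t + t)))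

lemma AG_shift (hT : TI P dm) (t : ℤ × ℤ) (e : ℤ × ℤ) :
    e ∈ AG dm (w + t) ρ R ↔ (syT t).G' e ∈ AG dm w ρ R := by
  rw [mem_AG, mem_AG, hT.2]
  have e1 : (syT t).G' e = e - (t + t) := by
    simp only [syT, Prod.ext_iff, Prod.fst_sub, Prod.snd_sub, Prod.fst_add, Prod.snd_add]
    constructor <;> ring
  rw [e1]
  unfold BR
  rw [mem_Bx, mem_Bx, mem_Bx, mem_Bx]
  simp only [Prod.fst_add, Prod.snd_add, Prod.fst_sub, Prod.snd_sub]
  constructor
  · rintro ⟨h1, h2⟩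
    exact ⟨by omega, h2⟩
  · rintro ⟨h1, h2⟩
    exact ⟨by omega, h2⟩

lemma UG_shift (hT : TI P dm) (t : ℤ × ℤ) :
    UG P dm (w + t) ρ R (ω.map (syT t).G) ↔ UG P dm w ρ R ω := by
  unfold UG
  rw [(syT t).map_inter ω (AG_shift hT t)]
  have hg : ∀ u, (syT t).g u = u + t := fun u => rfl
  have hN : ∀ u, Near (w + t) ρ (u + t) ↔ Near w ρ u := fun u => by
    unfold Near
    simp only [Prod.fst_add, Prod.snd_add, add_sub_add_right_eq_sub]
  have hF : ∀ u, Far (w + t) R (u + t) ↔ Far w R u := fun u => by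
    unfold Far
    simp only [Prod.fst_add, Prod.snd_add, add_sub_add_right_eq_sub]
  constructor
  · rintro ⟨u, v, h1, h2, h3, h4⟩
    refine ⟨u - t, v - t, ?_, ?_, ?_, ?_⟩
    · rw [← hN, sub_add_cancel]; exact h1
    · rw [← hF, sub_add_cancel]; exact h2
    · rw [← (syT t).co_iff, hg, hg, sub_add_cancel, sub_add_cancel]; exact h3
    · intro y hy
      rw [← (syT t).co_iff, hg, hg, sub_add_cancel] at hy
      exact (hT.1 _ _ _).1 (h4 _ hy)
  · rintro ⟨u, v, h1, h2, h3, h4⟩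
    refine ⟨u + t, v + t, (hN u).2 h1, (hF v).2 h2, ?_, ?_⟩
    · rw [← hg, ← hg, (syT t).co_iff]; exact h3
    · intro y hy
      have h5 : Co (ω ∩ AG dm w ρ R) u (y - t) := by
        rw [← (syT t).co_iff, hg, hg, sub_add_cancel]; exact hy
      have h6 := h4 _ h5
      rw [← hT.1 _ t, sub_add_cancel] at h6
      exact h6

/-- the probability of the event -/
noncomputable def ug (P dm : ℤ × ℤ → ℤ × ℤ → Prop) (w : ℤ × ℤ) (ρ R : ℤ) : ℝ :=
  PrP hf (AG dm w ρ R) (UG P dm w ρ R)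

lemma UG_local : UG P dm w ρ R ω ↔ UG P dm w ρ R (ω ∩ AG dm w ρ R) := by
  unfold UG
  rw [inter_assoc, inter_self]

lemma PrP_UG (hE : AG dm w ρ R ⊆ E) : PrP hf E (UG P dm w ρ R) = ug P dm w ρ R := by
  unfold ug
  rw [← PrP_restrict hf hE]
  exact PrP_congr fun ω _ => UG_local

lemma ug_shift (hT : TI P dm) (t : ℤ × ℤ) : ug P dm (w + t) ρ R = ug P dm w ρ R := by
  unfold ug
  have h := Sy_PrP (syT t) (1 / 2) (E1 := AG dm w ρ R) (E2 := AG dm (w + t) ρ R)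
    (fun e => AG_shift hT t e) (UG P dm (w + t) ρ R)
  refine h.trans ?_
  exact PrP_congr fun ω _ => UG_shift hT t

lemma ug_eq (hT : TI P dm) (w w' : ℤ × ℤ) : ug P dm w ρ R = ug P dm w' ρ R := by
  have h := ug_shift (w := w) (ρ := ρ) (R := R) hT (w' - w)
  rw [← h]
  congr 1
  ring

lemma ug_nonneg : 0 ≤ ug P dm w ρ R := PrP_nonneg hf_Pb _ _

lemma ug_le_one : ug P dm w ρ R ≤ 1 := PrP_le_one hf_Pb _ _

/-! ### submultiplicativity -/

/-- trivial annulus -/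
lemma ug_refl (hP : P w (w.1, w.2 + ρ)) (hρ : 0 ≤ ρ) : ug P dm w ρ ρ = 1 := by
  unfold ug
  rw [← PrP_true hf (AG dm w ρ ρ)]
  refine PrP_congr fun ω _ => ?_
  simp only [iff_true]
  refine ⟨(w.1, w.2 + ρ), (w.1, w.2 + ρ), ?_, ?_, Co.refl _ _, ?_⟩
  · unfold Near
    rw [abs_le, abs_le]
    simp only
    omega
  · unfold Far
    rw [le_abs, le_abs]
    simp only
    omega
  · intro y hy
    rcases Relation.ReflTransGen.cases_head hy with h | ⟨c, h, -⟩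
    · rw [← h]; exact hP
    · exfalso
      have := (mem_AG.1 (mem_inter.1 h.2).2).1
      exact this.2 this.1

lemma AG_sub {ρ' R' : ℤ} (h1 : ρ ≤ ρ') (h2 : R' ≤ R) : AG dm w ρ' R' ⊆ AG dm w ρ R := by
  intro l hl
  rw [mem_AG] at hl ⊢
  exact ⟨⟨BR_mono h2 hl.1.1, fun h => hl.1.2 (BR_mono h1 h)⟩, hl.2⟩

/-- **submultiplicativity** -/
theorem ug_mul {s : ℤ} (hP : ∀ ρ, 1 ≤ ρ → P w (w.1, w.2 + ρ)) (hρ : 1 ≤ ρ) (hρs : ρ ≤ s)
    (hsR : s ≤ R) : ug P dm w ρ R ≤ ug P dm w ρ s * ug P dm w s R := by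
  rcases eq_or_lt_of_le hρs with rfl | hρs
  · rw [ug_refl (hP ρ hρ) (by omega), one_mul]
  rcases eq_or_lt_of_le hsR with rfl | hsR
  · rw [ug_refl (hP s (by omega)) (by omega), mul_one]
  set E := AG dm w ρ R with hE
  set E1 := AG dm w ρ s with hE1
  set E2 := AG dm w s R with hE2
  have s1 : E1 ⊆ E := AG_sub le_rfl hsR.le
  have s2 : E2 ⊆ E := AG_sub hρs.le le_rfl
  have hdis : Disjoint E1 E2 := by
    rw [disjoint_left]
    intro l h1 h2
    rw [hE1, mem_AG] at h1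
    rw [hE2, mem_AG] at h2
    exact h2.1.2 h1.1.1
  have h1 := PrP_indep hf s1 s2 hdis (UG P dm w ρ s) (UG P dm w s R)
  unfold ug
  rw [← h1]
  refine PrP_mono hf_Pb fun ω hω h => ?_
  obtain ⟨u, v, hu, hv, huv, hcu⟩ := h
  have hωE : ω ∩ E = ω := inter_eq_left.2 hω
  rw [hωE] at huv hcu
  have huv' := huv
  unfold Near at hu
  unfold Far at hv
  constructor
  · -- inner annulus
    have hus : |u.1 - w.1| < s ∧ |u.2 - w.2| < s := ⟨by omega, by omega⟩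
    obtain ⟨v', hv', h2⟩ := open_exit huv hus (by omega)
    have e1 : ω ∩ E1 ∩ E1 = ω ∩ E1 := by rw [inter_assoc, inter_self]
    refine ⟨u, v', hu, hv', ?_, ?_⟩
    · rw [← hE1, e1]
      refine h2.mono fun l hl => ?_
      obtain ⟨g1, g2⟩ := mem_inter.1 hl
      have g3 := mem_AG.1 (hE ▸ hω g1)
      exact mem_inter.2 ⟨g1, by rw [hE1, mem_AG]; exact ⟨⟨g2, g3.1.2⟩, g3.2⟩⟩
    · intro y hy
      rw [← hE1, e1] at hy
      exact hcu y (hy.mono inter_subset_left)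
  · -- outer annulus
    have hus : inR w s u := by
      rw [inR_iff]
      rw [abs_le, abs_le] at hu
      omega
    have hvs : ¬ inR w s v := by
      rw [inR_iff]
      rw [le_abs, le_abs] at hv
      omega
    obtain ⟨u', hu', h2⟩ := last_exit huv hus hvs
    have e1 : ω ∩ E2 ∩ E2 = ω ∩ E2 := by rw [inter_assoc, inter_self]
    have e2 : ω \ BR w s ⊆ ω ∩ E2 := by
      intro l hl
      obtain ⟨g1, g2⟩ := mem_sdiff.1 hl
      have g3 := mem_AG.1 (hE ▸ hω g1)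
      exact mem_inter.2 ⟨g1, by rw [hE2, mem_AG]; exact ⟨⟨g3.1.1, g2⟩, g3.2⟩⟩
    refine ⟨u', v, ?_, hv, ?_, ?_⟩
    · unfold Near
      rw [inR_iff] at hu'
      rw [abs_le, abs_le]
      omega
    · rw [← hE2, e1]
      exact h2.mono e2
    · intro y hy
      rw [← hE2, e1] at hy
      refine hcu y ((huv.trans (h2.mono sdiff_subset).symm).trans (hy.mono inter_subset_left))

end Pool.Agent.H60.Q1.Corn
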