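import Mathlib
import Pool.Agent.H60.Q1.Corn.Ev

set_option autoImplicit false
open Finset

/-! Corners: from the one-step gadget to the bound `C (ρ/R)^(1+α)`. -/

namespace Pool.Agent.H60.Q1.Corn

open Pool.Agent.H75.Perc Pool.Agent.H75.TwoArm Pool.Agent.H75.Four Pool.Agent.H49.Perc
open Pool.Agent.H99.NC Pool.Agent.H60.Q1
open Pool.Agent.H20.Q1 (Sph mem_Sph)

variable {P : ℤ × ℤ → ℤ × ℤ → Prop} {dm : ℤ × ℤ → ℤ × ℤ → Prop}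

/-- the event at a corner is counted -/
lemma ug_le_nB {w o : ℤ × ℤ} {ρ N : ℤ} {E : Finset (ℤ × ℤ)} (hρN : ρ ≤ N) (hN : 1 ≤ N)
    (hw : inR o N w) (hE : E ⊆ BR o (8 * N)) (hdE : ∀ l, l ∈ BR o (8 * N) → dm w l → l ∈ E)
    (hEd : ∀ y z : ℤ × ℤ, IsUnit4 (z - y) → y + z ∈ E → P w y → dm w (y + z)) :
    ug P dm w ρ (9 * N) ≤ nB (P w) hf E o N w ρ := by
  have h1 : PrP hf (AG dm w ρ (9 * N) ∪ E) (UG P dm w ρ (9 * N)) = ug P dm w ρ (9 * N) :=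
    PrP_UG subset_union_left
  rw [← h1]
  refine le_trans (PrP_mono hf_Pb fun ω _ h3 => UG_Bq hρN hN le_rfl hw hE hdE hEd h3) ?_
  refine (PrP_exists_le hf_Pb _ _ _).trans ?_
  unfold nB
  refine sum_le_sum fun x _ => ?_
  exact (PrP_restrict hf (E := AG dm w ρ (9 * N) ∪ E) (E1 := E) subset_union_right
    (Bq (P w) E o N w ρ x)).le

/-- **from the gadget to the power** -/
theorem corner_power (hT : TI P dm) (hP : ∀ w ρ, 1 ≤ ρ → P w (w.1, w.2 + ρ)) (lam K : ℤ)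
    (hl : 2 ≤ lam) (hl3 : lam ≤ 3) (hK : 1 ≤ K) {c0 r : ℝ} (hc0 : 0 < c0) (hr0 : 0 ≤ r)
    (hr1 : r < 1) (EE : ℤ × ℤ → ℤ → Finset (ℤ × ℤ)) (φ d : ℤ × ℤ → ℤ × ℤ → ℤ)
    (W : ℤ × ℤ → ℤ → ℤ × ℤ) (θ : ℤ × ℤ → ℤ → ℤ → ℤ) (hE : ∀ o N, EE o N ⊆ BR o (8 * N))
    (hW : ∀ o t s, |t - s| ≤ |(W o t).2 - (W o s).2|)
    (hWo : ∀ o N t, |t - o.2| ≤ N → inR o N (W o t))
    (hdE : ∀ o N t l, l ∈ BR o (8 * N) → dm (W o t) l → l ∈ EE o N)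
    (hEd : ∀ o N t, ∀ y z : ℤ × ℤ, IsUnit4 (z - y) → y + z ∈ EE o N → P (W o t) y →
      dm (W o t) (y + z))
    (hr : ∀ o N, 1 ≤ N → PrP hf (EE o N) (Arm1 o (2 * N) (8 * N)) ≤ r)
    (hstep : ∀ (o : ℤ × ℤ) (N : ℤ), 1 ≤ N → ∀ t : ℤ, |t - o.2| ≤ N → ∀ a : ℤ, 2 ≤ a →
      8 * (lam * a) ≤ N → nB (P (W o t)) hf (EE o N) o N (W o t) (a - 1) ≤
        nD (φ o) (d o) hf (EE o N) o N (W o t) (4 * (K * (lam * a))) (θ o (lam * a) t)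
          (2 * (lam * a)) (8 * (K * (lam * a))) / c0 +
        nB (P (W o t)) hf (EE o N) o N (W o t) (lam * a) * (1 / 16)) :
    ∃ C α : ℝ, 0 < C ∧ 0 < α ∧ ∀ (w : ℤ × ℤ) (ρ R : ℤ), 1 ≤ ρ → ρ ≤ R →
      ug P dm w ρ R ≤ C * ((ρ : ℝ) / R) ^ (1 + α) := by
  obtain ⟨C, hC, hsum⟩ := corner_sum lam K hl hl3 hK hc0 hr0 hr1
  obtain ⟨C', α, hC', hα, hpow⟩ := power_gain lam hl hl3 hC
  refine ⟨C', α, hC', hα, fun w ρ R hρ hρR => ?_⟩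
  refine hpow (fun ρ R => ug P dm w ρ R) (fun _ _ => ug_nonneg) (fun _ _ => ug_le_one)
    (fun ρ s R h1 h2 h3 => ug_mul (hP w) h1 h2 h3) ?_ ρ R hρ hρR
  intro N ρ n hN hρ hn
  have hNR : (1 : ℝ) ≤ N := by exact_mod_cast hN
  have hcard : (((Finset.Icc (w.2 - N) (w.2 + N)).card : ℕ) : ℝ) = 2 * N + 1 := by
    rw [Int.card_Icc, ← Int.cast_natCast, Int.toNat_of_nonneg (by omega)]
    push_cast
    ring
  have hmem : ∀ t ∈ Finset.Icc (w.2 - N) (w.2 + N), |t - w.2| ≤ N := by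
    intro t ht
    rw [mem_Icc] at ht
    rw [abs_le]
    omega
  have h1 := hsum hf hf_Pb (EE w N) w N hN (hr w N hN) (fun t => P (W w t)) (φ w) (d w) (W w)
    (θ w) (Finset.Icc (w.2 - N) (w.2 + N)) (hW w) (by rw [hcard]; linarith)
    (fun t ht a ha haN => hstep w N hN t (hmem t ht) a ha haN) ρ n hρ hn
  refine (sum_le_sum fun k hk => ?_).trans h1
  have hb0 : 0 ≤ bs lam ρ k := bs_nonneg hl (by omega) k
  have hbR : (0 : ℝ) ≤ bs lam ρ k := by exact_mod_cast hb0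
  have hbk : bs lam ρ k ≤ N := by
    have h2 := bs_mono hl (by omega : 0 ≤ ρ) (mem_range.1 hk).le
    omega
  refine div_le_div_of_nonneg_right ?_ (by linarith)
  have h2 : ∀ t ∈ Finset.Icc (w.2 - N) (w.2 + N), ug P dm w (bs lam ρ k) (9 * N) ≤
      nB (P (W w t)) hf (EE w N) w N (W w t) (bs lam ρ k) := by
    intro t ht
    rw [ug_eq hT w (W w t)]
    exact ug_le_nB hbk hN (hWo w N t (hmem t ht)) (hE w N) (hdE w N t) (hEd w N t)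
  have h3 := sum_le_sum h2
  rw [sum_const, nsmul_eq_mul, hcard] at h3
  refine le_trans ?_ h3
  exact mul_le_mul_of_nonneg_right (by linarith) ug_nonneg

end Pool.Agent.H60.Q1.Corn
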