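import Mathlib
import Pool.Agent.H60.Q1.Corn.Main

set_option autoImplicit false
open Finset

/-!
# Reflex corner, deterministic part

The domain is `v.2 + |v.1 - w.1| ≥ w.2` (complement of a quadrant with diagonal sides).
-/

namespace Pool.Agent.H60.Q1.Corn

open Pool.Agent.H75.Perc Pool.Agent.H75.TwoArm Pool.Agent.H75.Four Pool.Agent.H49.Perc
open Pool.Agent.H99.NC Pool.Agent.H60.Q1
open Pool.Agent.H20.Q1 (Sph mem_Sph BR_mono BR_ends BR_of_ends box_or_exit last_exit Seal)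

/-- strict inside -/
def PR (w v : ℤ × ℤ) : Prop := w.2 < v.2 + |v.1 - w.1|

/-- labels of the domain -/
def dR (w l : ℤ × ℤ) : Prop := 2 * w.2 ≤ l.2 + |l.1 - 2 * w.1|

lemma HC_loc {a b c d : ℤ} {ω F : Finset (ℤ × ℤ)} (h : Bx a b c d ⊆ F) :
    HC a b c d ω ↔ HC a b c d (ω ∩ F) := by
  unfold HC
  rw [inter_assoc, inter_eq_right.2 h]

lemma VC_loc {a b c d : ℤ} {ω F : Finset (ℤ × ℤ)} (h : Bx a b c d ⊆ F) :
    VC a b c d ω ↔ VC a b c d (ω ∩ F) := by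
  unfold VC
  rw [inter_assoc, inter_eq_right.2 h]

lemma Ring_loc {w : ℤ × ℤ} {a : ℤ} {ω F : Finset (ℤ × ℤ)} (ha : 0 ≤ a) (h : BR w (2 * a) ⊆ F) :
    Ring w a ω ↔ Ring w a (ω ∩ F) := by
  unfold BR at h
  unfold H99.NC.Ring
  rw [HC_loc ((Bx_sub le_rfl le_rfl (by omega) le_rfl).trans h),
    HC_loc (a := w.1 - 2 * a) (b := w.1 + 2 * a) (c := w.2 - 2 * a) (d := w.2 - a)
      ((Bx_sub le_rfl le_rfl le_rfl (by omega)).trans h),
    VC_loc (a := w.1 - 2 * a) (b := w.1 - a) (c := w.2 - 2 * a) (d := w.2 + 2 * a)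
      ((Bx_sub le_rfl (by omega) le_rfl le_rfl).trans h),
    VC_loc (a := w.1 + a) (b := w.1 + 2 * a) (c := w.2 - 2 * a) (d := w.2 + 2 * a)
      ((Bx_sub (by omega) le_rfl le_rfl le_rfl).trans h)]

/-- sealed clusters stay in the box -/
lemma seal_in {w u y : ℤ × ℤ} {c : ℤ} {η : Finset (ℤ × ℤ)} (h : Seal w c η)
    (hu : inR w c u) (hy : Co η u y) : inR w (4 * c) y := by
  by_contra h5
  have hcy : ¬ inR w c y := by rw [inR_iff] at h5 ⊢; omega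
  obtain ⟨u', hu', h6⟩ := last_exit hy hu hcy
  apply h
  refine ⟨u', y, ?_, ?_, ?_, h6⟩
  · rw [inR_iff] at hu'; rw [abs_le]; omega
  · rw [inR_iff] at hu'; rw [abs_le]; omega
  · rw [inR_iff] at h5
    rw [le_abs, le_abs]
    omega

/-- paths in a cluster contained in a set -/
lemma co_cox {η : Finset (ℤ × ℤ)} {X : ℤ × ℤ → Prop} {u y : ℤ × ℤ} (h : Co η u y)
    (hX : ∀ v, Co η u v → X v) : CoX η X u y := by
  induction h with
  | refl => exact Relation.ReflTransGen.refl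
  | @tail p r hp hpr ih => exact ih.tail ⟨hpr, hX r (hp.tail hpr)⟩

/-- **the closed arch** -/
lemma arch {w u y : ℤ × ℤ} {b m : ℤ} (hb : 1 ≤ b) {η : Finset (ℤ × ℤ)} (h : Co η u y)
    (hX : ∀ v, Co η u v → inR w m v) (hu : inR w b u) (hy : y.2 ≤ w.2 - 10 * b)
    (hV : ¬ VC (w.1 - 3 * b) (w.1 + 3 * b) (w.2 - 9 * b) (w.2 - 8 * b) η)
    (hL : ¬ HC (w.1 - 3 * b) (w.1 - 2 * b) (w.2 - m) (w.2 - 8 * b) η)
    (hR : ¬ HC (w.1 + 2 * b) (w.1 + 3 * b) (w.2 - m) (w.2 - 8 * b) η) :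
    y.1 ≤ w.1 - 2 * b ∨ w.1 + 2 * b ≤ y.1 := by
  by_contra hcon
  push Not at hcon
  rw [inR_iff] at hu
  have h1 : CoX η (inR w m) y u := CoX.symm (co_cox h hX) (hX u (Co.refl _ _))
  obtain ⟨z, z', g1, g2, g3, g4, g5⟩ := exit_cox
    (Y := fun v => (w.1 - 3 * b ≤ v.1 ∧ v.1 ≤ w.1 + 3 * b) ∧ v.2 ≤ w.2 - 8 * b) h1
    ⟨⟨by omega, by omega⟩, by omega⟩ (by omega)
  have hy0 : inR w m y ∧ ((w.1 - 3 * b ≤ y.1 ∧ y.1 ≤ w.1 + 3 * b) ∧ y.2 ≤ w.2 - 8 * b) :=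
    ⟨hX y h, ⟨by omega, by omega⟩, by omega⟩
  have hu1 := unit_cases g4.1
  by_cases hc1 : w.2 - 8 * b < z'.2
  · apply hV
    refine band_V' (X := fun v => inR w m v ∧ ((w.1 - 3 * b ≤ v.1 ∧ v.1 ≤ w.1 + 3 * b) ∧
      v.2 ≤ w.2 - 8 * b)) g5 hy0 (by omega) (by omega) (by omega) fun v hv => hv.2.1
  · by_cases hc2 : z'.1 < w.1 - 3 * b
    · apply hL
      refine band_H' (X := fun v => inR w m v ∧ ((w.1 - 3 * b ≤ v.1 ∧ v.1 ≤ w.1 + 3 * b) ∧
        v.2 ≤ w.2 - 8 * b)) g5 hy0 (by omega) (by omega) (by omega) fun v hv => ?_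
      have := hv.1
      rw [inR_iff] at this
      omega
    · apply hR
      refine band_H (X := fun v => inR w m v ∧ ((w.1 - 3 * b ≤ v.1 ∧ v.1 ≤ w.1 + 3 * b) ∧
        v.2 ≤ w.2 - 8 * b)) g5 hy0 (by omega) (by omega) (by omega) fun v hv => ?_
      have := hv.1
      rw [inR_iff] at this
      omega

/-- open part of the gadget -/
def GO (w : ℤ × ℤ) (a b : ℤ) (ω : Finset (ℤ × ℤ)) : Prop :=
  (Ring w a ω ∧ VC (w.1 - (a - 1)) (w.1 + (a - 1)) (w.2 - 7 * b) w.2 ω) ∧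
  (HC (w.1 - 5 * b) (w.1 + (a - 1)) (w.2 - 7 * b) (w.2 - 6 * b) ω ∧
    VC (w.1 - 5 * b) (w.1 - 4 * b) (w.2 - 16 * b) (w.2 - 6 * b) ω)

/-- closed part of the gadget -/
def GC (w : ℤ × ℤ) (b c : ℤ) (ω : Finset (ℤ × ℤ)) : Prop :=
  ¬ VC (w.1 - 3 * b) (w.1 + 3 * b) (w.2 - 9 * b) (w.2 - 8 * b) ω ∧
  ¬ HC (w.1 - 3 * b) (w.1 - 2 * b) (w.2 - 4 * c) (w.2 - 8 * b) ω ∧
  ¬ HC (w.1 + 2 * b) (w.1 + 3 * b) (w.2 - 4 * c) (w.2 - 8 * b) ω ∧
  ¬ Arm1 w c (4 * c) (ω \ BR w c)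

/-- labels of the boxes of the open gadget -/
noncomputable def FO (w : ℤ × ℤ) (a b : ℤ) : Finset (ℤ × ℤ) :=
  (BR w b ∪ Bx (w.1 - (a - 1)) (w.1 + (a - 1)) (w.2 - 7 * b) w.2) ∪
  (Bx (w.1 - 5 * b) (w.1 + (a - 1)) (w.2 - 7 * b) (w.2 - 6 * b) ∪
    Bx (w.1 - 5 * b) (w.1 - 4 * b) (w.2 - 16 * b) (w.2 - 6 * b))

lemma GO_loc {w : ℤ × ℤ} {a b : ℤ} {ω F : Finset (ℤ × ℤ)} (ha : 0 ≤ a) (hb : b = 2 * a)
    (h : FO w a b ⊆ F) : GO w a b ω ↔ GO w a b (ω ∩ F) := by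
  unfold FO at h
  rw [union_subset_iff, union_subset_iff, union_subset_iff] at h
  unfold GO
  rw [Ring_loc (F := F) ha (by rw [← hb]; exact h.1.1), VC_loc h.1.2, HC_loc h.2.1, VC_loc h.2.2]

lemma GO_inc (w : ℤ × ℤ) (a b : ℤ) : Inc (GO w a b) := fun _ _ h h1 =>
  ⟨⟨Ring_inc w a _ _ h h1.1.1, VC_inc _ _ _ _ _ _ h h1.1.2⟩,
    ⟨HC_inc _ _ _ _ _ _ h h1.2.1, VC_inc _ _ _ _ _ _ h h1.2.2⟩⟩

/-- the labels of the open gadget are fresh -/
lemma FO_fresh {w : ℤ × ℤ} {a b : ℤ} (hb : b = 2 * a) :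
    ∀ l ∈ FO w a b, l ∉ BR w b → ¬ PR w (eu l) ∧ ¬ PR w (ev l) := by
  intro l hl hn
  unfold FO at hl
  rw [mem_union, mem_union, mem_union] at hl
  unfold BR at hl hn
  rw [mem_Bx] at hl hn
  rw [mem_Bx, mem_Bx, mem_Bx] at hl
  unfold PR eu ev
  simp only
  rcases abs_cases (l.1 / 2 - w.1) with ⟨h1, -⟩ | ⟨h1, -⟩ <;>
    rcases abs_cases ((l.1 + 1) / 2 - w.1) with ⟨h2, -⟩ | ⟨h2, -⟩ <;> rw [h1, h2] <;> omega

variable {E ω ω' : Finset (ℤ × ℤ)} {o w x : ℤ × ℤ} {N a b b' c : ℤ}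

/-- **the gadget works** -/
theorem refl_det (ha : 1 ≤ a) (hb : b = 2 * a) (hb' : b' = a - 1) (hbc : b ≤ c)
    (hbN : BR w b ⊆ BR o (2 * N)) (hx : ¬ inR w (b - 1) x) (hω'E : ω' ⊆ E)
    (h : Bq (PR w) E o N w b x ω) (hJ : Jq (PR w) E w b b' c x ω ω') (hO : GO w a b ω')
    (hC : GC w b c ω') :
    Dq (fun v => v.2 + |v.1 - w.1|) (fun v => |v.1 - w.1|) E o N w (4 * c) (w.2 - 10 * b) (2 * b)
      (8 * c) x (mix (UV E w b x ω) ω ω') := by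
  refine ⟨Oc_mix hbN h.1, ?_, ?_⟩
  · set η := mix (UV E w b x ω) ω ω' with hη
    have hOη : GO w a b η := by
      rw [GO_loc (by omega) hb (Finset.Subset.refl _)] at hO
      exact GO_inc w a b _ _ (fresh_sub h (FO_fresh hb)) hO
    obtain ⟨⟨hRing, v, v', v1, v2, v3, v4⟩, ⟨⟨p, p', p1, p2, p3, p4⟩, ⟨r, r', r1, r2, r3, r4⟩⟩⟩ := hOη
    obtain ⟨s, hs⟩ := hRing.spec ha
    obtain ⟨u', hu', hxu⟩ := J_co hJ
    -- the cluster meets the ring
    have c1 : Co η x s := hxu.trans (hs u' x (by rw [← hb']; exact hu') (by rw [← hb]; exact hx)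
      hxu.symm)
    -- the first vertical crossing meets the ring
    have hv' : inB (w.1 - (a - 1)) (w.1 + (a - 1)) (w.2 - 7 * b) w.2 v' :=
      v4.inB inter_subset_right v1
    have c2 : Co η v' s := by
      refine hs v' v ?_ ?_ (v4.mono inter_subset_left).symm
      · rw [inR_iff]
        unfold inB at hv'
        omega
      · rw [inR_iff]
        omega
    have c3 : Co η v s := (v4.mono inter_subset_left).trans c2
    -- the horizontal crossing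
    obtain ⟨z1, z1a, z1b⟩ := cross_co (a := w.1 - 5 * b) (b := w.1 + (a - 1)) (c := w.2 - 7 * b)
      (d := w.2) (inter_subset_right.trans (Bx_sub le_rfl le_rfl le_rfl (by omega)))
      (inter_subset_right.trans (Bx_sub (by omega) le_rfl le_rfl le_rfl))
      (by unfold inB at p1 ⊢; omega) (by unfold inB at v1 ⊢; omega) p4 v4 p2 p3 v2 v3
    have c4 : Co η p s := ((z1a.mono inter_subset_left).trans
      (z1b.mono inter_subset_left).symm).trans c3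
    obtain ⟨z2, z2a, z2b⟩ := cross_co (a := w.1 - 5 * b) (b := w.1 + (a - 1)) (c := w.2 - 16 * b)
      (d := w.2 - 6 * b) (inter_subset_right.trans (Bx_sub le_rfl le_rfl (by omega) le_rfl))
      (inter_subset_right.trans (Bx_sub le_rfl (by omega) le_rfl le_rfl))
      (by unfold inB at p1 ⊢; omega) (by unfold inB at r1 ⊢; omega) p4 r4 p2 p3 r2 r3
    have c5 : Co η r s := ((z2b.mono inter_subset_left).trans
      (z2a.mono inter_subset_left).symm).trans c4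
    refine ⟨r, c1.trans c5.symm, ?_⟩
    unfold inB at r1
    simp only
    rcases abs_cases (r.1 - w.1) with ⟨h1, -⟩ | ⟨h1, -⟩ <;> rw [h1] <;> omega
  · intro y hy hφ
    simp only at hφ ⊢
    rcases str hω'E hy with h1 | ⟨u, hu1, -, hu2⟩
    · have h2 := h.2.2 y (CV_iff.1 h1)
      unfold PR at h2
      omega
    · have hu3 : Co ω' u y := hu2.mono sdiff_subset
      have huc : inR w c u := by rw [inR_iff] at hu1 ⊢; omega
      have hin : ∀ v, Co ω' u v → inR w (4 * c) v := fun v hv =>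
        seal_in hC.2.2.2 huc hv
      have h3 := hin y hu3
      have h4 : y.2 ≤ w.2 - 10 * b := by
        have := abs_nonneg (y.1 - w.1)
        omega
      have h5 := arch (by omega) hu3 hin hu1 h4 hC.1 hC.2.1 hC.2.2.1
      refine ⟨h3, ?_, ?_⟩
      · rw [le_abs]; omega
      · rw [inR_iff] at h3
        rw [abs_le]; omega

end Pool.Agent.H60.Q1.Corn
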