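import Mathlib
import Pool.Agent.H60.Q1.Corn.Refl

set_option autoImplicit false
open Finset

/-!
# Convex corner with a mark, deterministic part

The ambient region is the half plane `v.1 + v.2 ≥ w.1 + w.2`, the domain is the quadrant above `w` with
diagonal sides; its right side must not be touched, its left side (the wall of the half plane) may be
touched.
-/

namespace Pool.Agent.H60.Q1.Corn

open Pool.Agent.H75.Perc Pool.Agent.H75.TwoArm Pool.Agent.H75.Four Pool.Agent.H49.Perc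
open Pool.Agent.H99.NC Pool.Agent.H60.Q1
open Pool.Agent.H20.Q1 (Sph mem_Sph BR_mono BR_ends BR_of_ends box_or_exit last_exit Seal)

/-- strict inside (the right side is excluded) -/
def PC (w v : ℤ × ℤ) : Prop := w.2 - w.1 < v.2 - v.1

/-- labels of the quadrant -/
def dC (w l : ℤ × ℤ) : Prop := 2 * (w.1 + w.2) ≤ l.1 + l.2 ∧ 2 * (w.2 - w.1) ≤ l.2 - l.1

/-- a crossing of the half annulus meets a half ring -/
lemma RO_meet {κ : ℤ} (hκ : κ = 0 ∨ κ = 1) {w p p' u v : ℤ × ℤ} {ρ R : ℤ} (hρ : 1 ≤ ρ)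
    (hρR : ρ < R) {η : Finset (ℤ × ℤ)} (hη : ∀ l ∈ η, 2 * ht κ w ≤ ht κ l)
    (hp : WS κ w (-1) p) (hp' : WS κ w 1 p') (hpp : Co (η ∩ AL κ w ρ R) p p')
    (hu : Near w ρ u) (hv : Far w R v) (huv : Co η u v) : Co η u p := by
  have hu0 := hu
  unfold Near at hu0
  obtain ⟨v', hv', h1⟩ := open_exit (M := R) huv ⟨by omega, by omega⟩ hv
  obtain ⟨u', hu', h2⟩ := last_exit (w := w) (c := ρ) h1
    (by rw [inR_iff]; rw [abs_le, abs_le] at hu0; omega)
    (by rw [inR_iff]; rw [le_abs, le_abs] at hv'; omega)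
  have hsub : (η ∩ Bx (w.1 - R) (w.1 + R) (w.2 - R) (w.2 + R)) \ BR w ρ ⊆ η ∩ AL κ w ρ R := by
    intro l hl
    obtain ⟨g1, g2⟩ := mem_sdiff.1 hl
    obtain ⟨g3, g4⟩ := mem_inter.1 g1
    refine mem_inter.2 ⟨g3, ?_⟩
    unfold AL
    refine mem_sdiff.2 ⟨?_, g2⟩
    have g5 := hη l g3
    rw [mem_Bx] at g4
    rw [mem_HL]
    unfold ht at g5
    exact ⟨g4, g5⟩
  have h3 : Co (η ∩ AL κ w ρ R) u' v' := h2.mono hsub
  have hNu' : Near w ρ u' := by
    unfold Near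
    rw [inR_iff] at hu'
    rw [abs_le, abs_le]
    omega
  have hne : u' ≠ v' := near_ne_far (by omega) hNu' hv'
  have hne' : p ≠ p' := by
    rintro rfl
    unfold WS at hp hp'
    omega
  have r1 := Co.reg hκ (inter_subset_right) hpp hne'
  have r2 := Co.reg hκ (inter_subset_right) h3 hne
  obtain ⟨z, hz1, hz2⟩ := PL hκ hρ (Co.pth hpp) (Co.refl _ _) (Co.pth h3) (Co.refl _ _) r1.2 r2.2 hp hp' hNu' hv'
  have c1 : Co η p z := hz1.mono inter_subset_left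
  have c2 : Co η u' z := hz2.mono inter_subset_left
  have c3 : Co η u' v' := h3.mono inter_subset_left
  have c4 : Co η u v' := h1.mono inter_subset_left
  exact ((c4.trans c3.symm).trans c2).trans c1.symm

lemma cox_strong {η : Finset (ℤ × ℤ)} {X : ℤ × ℤ → Prop} {u v : ℤ × ℤ} (h : CoX η X u v) :
    CoX η (fun w => X w ∧ Co η u w) u v := by
  induction h with
  | refl => exact Relation.ReflTransGen.refl
  | @tail p r hp hpr ih => exact ih.tail ⟨hpr.1, hpr.2, (CoX.co hp).tail hpr.1⟩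

/-- **the closed box** -/
lemma box_conf {w u y : ℤ × ℤ} {b m : ℤ} (hb : 1 ≤ b) {η : Finset (ℤ × ℤ)} (h : Co η u y)
    (hX : ∀ v, Co η u v → inR w m v)
    (hH : ∀ v, Co η u v → v.2 < w.2 - b → w.1 + w.2 ≤ v.1 + v.2) (hu : inR w b u)
    (h1 : ¬ VC w.1 (w.1 + 10 * b) (w.2 - 3 * b) (w.2 - 2 * b) η)
    (h2 : ¬ HC (w.1 + 9 * b) (w.1 + 10 * b) (w.2 - 7 * b) (w.2 - 2 * b) η)
    (h3 : ¬ VC (w.1 + 9 * b) (w.1 + m) (w.2 - 7 * b) (w.2 - 6 * b) η) :
    ¬ ((y.1 ≤ w.1 + 9 * b ∧ y.2 ≤ w.2 - 3 * b) ∨ y.2 ≤ w.2 - 7 * b) := by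
  intro hy
  rw [inR_iff] at hu
  obtain ⟨z, z', g1, g2, g3, g4, g5⟩ := exit_co
    (X := fun v => ¬ ((v.1 ≤ w.1 + 9 * b ∧ v.2 ≤ w.2 - 3 * b) ∨ v.2 ≤ w.2 - 7 * b)) h
    (by omega) (by omega)
  rw [not_not] at g2
  have hu1 := unit_cases g3.1
  -- the path back from the first bad vertex
  set X : ℤ × ℤ → Prop := fun v =>
    (¬ ((v.1 ≤ w.1 + 9 * b ∧ v.2 ≤ w.2 - 3 * b) ∨ v.2 ≤ w.2 - 7 * b) ∨ v = z') ∧ Co η u v with hXd
  have hXz : X z' := ⟨Or.inr rfl, g5⟩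
  have hXu : X u := ⟨Or.inl (by omega), Co.refl _ _⟩
  have k1 : CoX η X u z' :=
    Relation.ReflTransGen.tail ((cox_strong g4).mono2 fun v hv => ⟨Or.inl hv.1, hv.2⟩) ⟨g3, hXz⟩
  have k2 : CoX η X z' u := CoX.symm k1 hXu
  by_cases hc : z'.1 ≤ w.1 + 9 * b
  · obtain ⟨t, t', t1, t2, t3, t4, t5⟩ := exit_cox
      (Y := fun v => v.2 ≤ w.2 - 2 * b ∧ v.1 ≤ w.1 + 10 * b) k2 (by omega) (by omega)
    have hu2 := unit_cases t4.1
    by_cases hc1 : w.2 - 2 * b < t'.2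
    · apply h1
      refine band_V' (X := fun v => X v ∧ (v.2 ≤ w.2 - 2 * b ∧ v.1 ≤ w.1 + 10 * b)) t5
        ⟨hXz, by omega⟩ (by omega) (by omega) (by omega) fun v hv => ?_
      have h4 := hH v hv.1.2 (by omega)
      omega
    · apply h2
      refine band_H (X := fun v => X v ∧ (v.2 ≤ w.2 - 2 * b ∧ v.1 ≤ w.1 + 10 * b)) t5
        ⟨hXz, by omega⟩ (by omega) (by omega) (by omega) fun v hv => ?_
      refine ⟨?_, hv.2.1⟩
      rcases hv.1.1 with h4 | h4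
      · omega
      · rw [h4]; omega
  · obtain ⟨t, t', t1, t2, t3, t4, t5⟩ := exit_cox
      (Y := fun v => v.2 ≤ w.2 - 6 * b) k2 (by omega) (by omega)
    have hu2 := unit_cases t4.1
    apply h3
    refine band_V' (X := fun v => X v ∧ v.2 ≤ w.2 - 6 * b) t5
      ⟨hXz, by omega⟩ (by omega) (by omega) (by omega) fun v hv => ?_
    have h4 := hX v hv.1.2
    rw [inR_iff] at h4
    refine ⟨?_, h4.1.2⟩
    rcases hv.1.1 with h5 | h5
    · omega
    · rw [h5]; omega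

/-- open part of the gadget -/
def GO2 (w : ℤ × ℤ) (a b : ℤ) (ω : Finset (ℤ × ℤ)) : Prop :=
  RO 1 w (a - 1) (3 * a) (3 * a) ω ∧
  HC w.1 (w.1 + 12 * b) w.2 (w.2 + (a - 1)) ω ∧
  VC (w.1 + 11 * b) (w.1 + 12 * b) (w.2 - 5 * b) (w.2 + (a - 1)) ω

/-- closed part of the gadget -/
def GC2 (w : ℤ × ℤ) (b c : ℤ) (ω : Finset (ℤ × ℤ)) : Prop :=
  ¬ VC w.1 (w.1 + 10 * b) (w.2 - 3 * b) (w.2 - 2 * b) ω ∧
  ¬ HC (w.1 + 9 * b) (w.1 + 10 * b) (w.2 - 7 * b) (w.2 - 2 * b) ω ∧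
  ¬ VC (w.1 + 9 * b) (w.1 + 4 * c) (w.2 - 7 * b) (w.2 - 6 * b) ω ∧
  ¬ Arm1 w c (4 * c) (ω \ BR w c)

/-- labels of the open gadget -/
noncomputable def FO2 (w : ℤ × ℤ) (a b : ℤ) : Finset (ℤ × ℤ) :=
  AL 1 w (a - 1) (3 * a) ∪ (Bx w.1 (w.1 + 12 * b) w.2 (w.2 + (a - 1)) ∪
    Bx (w.1 + 11 * b) (w.1 + 12 * b) (w.2 - 5 * b) (w.2 + (a - 1)))

lemma RO_loc' {κ : ℤ} {w : ℤ × ℤ} {ρ R M : ℤ} {ω F : Finset (ℤ × ℤ)} (h : AL κ w ρ R ⊆ F) :
    RO κ w ρ R M ω ↔ RO κ w ρ R M (ω ∩ F) := by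
  unfold RO
  rw [inter_assoc, inter_eq_right.2 h]

lemma GO2_loc {w : ℤ × ℤ} {a b : ℤ} {ω F : Finset (ℤ × ℤ)} (h : FO2 w a b ⊆ F) :
    GO2 w a b ω ↔ GO2 w a b (ω ∩ F) := by
  unfold FO2 at h
  rw [union_subset_iff, union_subset_iff] at h
  unfold GO2
  rw [RO_loc' (F := F) h.1, HC_loc h.2.1, VC_loc h.2.2]

lemma GO2_inc (w : ℤ × ℤ) (a b : ℤ) : Inc (GO2 w a b) := fun _ _ h h1 =>
  ⟨RO_inc _ _ h h1.1, HC_inc _ _ _ _ _ _ h h1.2.1, VC_inc _ _ _ _ _ _ h h1.2.2⟩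

/-- the labels of the open gadget are fresh -/
lemma FO2_fresh {w : ℤ × ℤ} {a b : ℤ} (hb : b = 3 * a) :
    ∀ l ∈ FO2 w a b, l ∉ BR w b → ¬ PC w (eu l) ∧ ¬ PC w (ev l) := by
  intro l hl hn
  unfold FO2 at hl
  rw [mem_union, mem_union, mem_AL, mem_Bx, mem_Bx] at hl
  unfold BR at hn
  rw [mem_Bx] at hn
  unfold PC eu ev
  simp only
  omega

variable {E ω ω' : Finset (ℤ × ℤ)} {o w x : ℤ × ℤ} {N a b b' c : ℤ}

/-- the far end of the outer cluster is in the half plane -/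
lemma Oc_half {h0 : ℤ} (hN : 1 ≤ N) (hE : ∀ l ∈ E, 2 * h0 ≤ l.1 + l.2) (hωE : ω ⊆ E)
    (hx : x ∈ Sph o (2 * N)) (h : Oc E o N x ω) : h0 ≤ x.1 + x.2 := by
  obtain ⟨⟨v, hv, hxv⟩, -⟩ := h
  rcases Relation.ReflTransGen.cases_head hxv with h1 | ⟨z, h1, -⟩
  · exfalso
    rw [h1, mem_Sph] at hx
    unfold Far at hv
    omega
  · have h2 := hE _ (hωE (mem_inter.1 h1.2).1)
    have h3 := unit_cases h1.1
    simp only [Prod.fst_add, Prod.snd_add] at h2
    omega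

/-- vertices of a cluster in the half plane -/
lemma co_half {h0 : ℤ} {η : Finset (ℤ × ℤ)} (hE : ∀ l ∈ η, 2 * h0 ≤ l.1 + l.2) {u v : ℤ × ℤ}
    (h : Co η u v) (hne : u ≠ v) : h0 ≤ v.1 + v.2 := by
  rcases Relation.ReflTransGen.cases_tail h with h1 | ⟨z, -, h1⟩
  · exact absurd h1.symm hne
  · have h2 := hE _ h1.2
    have h3 := unit_cases h1.1
    simp only [Prod.fst_add, Prod.snd_add] at h2
    omega

/-- **the gadget works** -/
theorem conv_det (ha : 2 ≤ a) (hb : b = 3 * a) (hb' : b' = a - 1) (hbc : b ≤ c) (hN : 1 ≤ N)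
    (hxS : x ∈ Sph o (2 * N)) (hbN : BR w b ⊆ BR o (2 * N)) (hx : ¬ inR w (b - 1) x)
    (hE : ∀ l ∈ E, 2 * (w.1 + w.2) ≤ l.1 + l.2) (hωE : ω ⊆ E) (hω'E : ω' ⊆ E)
    (h : Bq (PC w) E o N w b x ω) (hJ : Jq (PC w) E w b b' c x ω ω') (hO : GO2 w a b ω')
    (hC : GC2 w b c ω') :
    Dq (fun v => v.2) (fun v => v.1 + v.2 - (w.1 + w.2)) E o N w (4 * c) (w.2 - 4 * b) (2 * b)
      (8 * c) x (mix (UV E w b x ω) ω ω') := by
  set η := mix (UV E w b x ω) ω ω' with hη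
  have hηE : η ⊆ E := by
    intro l hl
    rw [hη, mem_mix] at hl
    rcases hl with hl | hl
    · exact hωE hl.1
    · exact hω'E hl.1
  have hηh : ∀ l ∈ η, 2 * ht 1 w ≤ ht 1 l := by
    intro l hl
    have := hE l (hηE hl)
    unfold ht
    omega
  refine ⟨Oc_mix hbN h.1, ?_, ?_⟩
  · have hOη : GO2 w a b η := by
      rw [GO2_loc (Finset.Subset.refl _)] at hO
      exact GO2_inc w a b _ _ (fresh_sub h (FO2_fresh hb)) hO
    obtain ⟨⟨s, s', s1, s2, -, -, s3⟩, ⟨p, p', p1, p2, p3, p4⟩, ⟨r, r', r1, r2, r3, r4⟩⟩ := hOη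
    obtain ⟨u', hu', hxu⟩ := J_co hJ
    -- the cluster meets the half ring
    have c1 : Co η u' s := by
      refine RO_meet (Or.inr rfl) (ρ := a - 1) (R := 3 * a) (by omega) (by omega) hηh s1 s2 s3
        (v := x) ?_ ?_ hxu.symm
      · rw [hb', inR_iff] at hu'
        unfold Near
        rw [abs_le, abs_le]
        omega
      · rw [inR_iff] at hx
        unfold Far
        rw [le_abs, le_abs]
        omega
    -- the horizontal crossing meets the half ring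
    have c2 : Co η p s := by
      refine RO_meet (Or.inr rfl) (ρ := a - 1) (R := 3 * a) (by omega) (by omega) hηh s1 s2 s3
        (v := p') ?_ ?_ (p4.mono inter_subset_left)
      · unfold inB at p1
        unfold Near
        rw [abs_le, abs_le]
        omega
      · unfold Far
        rw [le_abs, le_abs]
        omega
    obtain ⟨z, z1, z2⟩ := cross_co (a := w.1) (b := w.1 + 12 * b) (c := w.2 - 5 * b)
      (d := w.2 + (a - 1)) (inter_subset_right.trans (Bx_sub le_rfl le_rfl (by omega) le_rfl))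
      (inter_subset_right.trans (Bx_sub (by omega) le_rfl le_rfl le_rfl))
      (by unfold inB at p1 ⊢; omega) (by unfold inB at r1 ⊢; omega) p4 r4 p2 p3 r2 r3
    have c3 : Co η r s := ((z2.mono inter_subset_left).trans
      (z1.mono inter_subset_left).symm).trans c2
    refine ⟨r, (hxu.trans c1).trans c3.symm, ?_⟩
    simp only
    omega
  · intro y hy hφ
    simp only at hφ ⊢
    rcases str hω'E hy with h1 | ⟨u, hu1, -, hu2⟩
    · exfalso
      have h2 := h.2.2 y (CV_iff.1 h1)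
      unfold PC at h2
      have h3 := Oc_half hN hE hωE hxS h.1
      by_cases hxy : x = y
      · rw [hxy] at h3
        omega
      · have h4 := co_half (fun l hl => hE l (hωE (mem_inter.1 hl).1)) (CV_iff.1 h1) hxy
        omega
    · have hu3 : Co ω' u y := hu2.mono sdiff_subset
      have huc : inR w c u := by rw [inR_iff] at hu1 ⊢; omega
      have hin : ∀ v, Co ω' u v → inR w (4 * c) v := fun v hv => seal_in hC.2.2.2 huc hv
      have hH : ∀ v, Co ω' u v → v.2 < w.2 - b → w.1 + w.2 ≤ v.1 + v.2 := by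
        intro v hv hvb
        refine co_half (fun l hl => hE l (hω'E hl)) hv ?_
        rintro rfl
        rw [inR_iff] at hu1
        omega
      have h3 := hin y hu3
      have h5 := box_conf (by omega) hu3 hin hH hu1 hC.1 hC.2.1 hC.2.2.1
      rw [inR_iff] at h3
      refine ⟨?_, ?_, ?_⟩
      · rw [inR_iff]; exact h3
      · omega
      · omega

end Pool.Agent.H60.Q1.Corn
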