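import Mathlib
import Pool.Agent.H60.Q1.Corn.Conv
import Pool.Agent.H60.Q1.Corn.ReflP
import Pool.Agent.H60.Q1.RingH

set_option autoImplicit false
open Finset

/-!
# Convex corner with a mark: three strands

`conv_le` : at density one half, the probability that an open cluster crosses the annulus of radii `ρ, R`
of a quadrant with diagonal sides and does not meet the right side (it may meet the left side) is at most
`C (ρ/R)^(1+α)`, `α > 0`.
-/

namespace Pool.Agent.H60.Q1.Corn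

open Pool.Agent.H75.Perc Pool.Agent.H75.TwoArm Pool.Agent.H75.Four Pool.Agent.H49.Perc
open Pool.Agent.H99.NC Pool.Agent.H60.Q1
open Pool.Agent.H20.Q1 (Sph mem_Sph BR_mono BR_ends BR_of_ends box_or_exit last_exit Seal BR_odd)

/-- labels of the closed box -/
noncomputable def FC2 (w : ℤ × ℤ) (b c : ℤ) : Finset (ℤ × ℤ) :=
  Bx w.1 (w.1 + 10 * b) (w.2 - 3 * b) (w.2 - 2 * b) ∪
  (Bx (w.1 + 9 * b) (w.1 + 10 * b) (w.2 - 7 * b) (w.2 - 2 * b) ∪
    Bx (w.1 + 9 * b) (w.1 + 4 * c) (w.2 - 7 * b) (w.2 - 6 * b))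

lemma PC_FC {w : ℤ × ℤ} {b c : ℤ} :
    ∀ l ∈ FC2 w b c, ¬ (PC w (eu l) ∧ PC w (ev l)) := by
  intro l hl
  unfold FC2 at hl
  rw [mem_union, mem_union, mem_Bx, mem_Bx, mem_Bx] at hl
  unfold PC eu ev
  simp only
  omega

lemma FO2_FC {w : ℤ × ℤ} {a b c : ℤ} (hb : b = 3 * a) :
    Disjoint (FO2 w a b) (FC2 w b c) := by
  rw [disjoint_left]
  intro l hl hl'
  unfold FO2 at hl
  unfold FC2 at hl'
  rw [mem_union, mem_union, mem_AL, mem_Bx, mem_Bx] at hl
  rw [mem_union, mem_union, mem_Bx, mem_Bx, mem_Bx] at hl'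
  omega

/-- probability of the open part -/
theorem GO2_prob : ∃ c1 : ℝ, 0 < c1 ∧ ∀ (E : Finset (ℤ × ℤ)) (w : ℤ × ℤ) (a b : ℤ), 2 ≤ a →
    b = 3 * a → FO2 w a b ⊆ E → c1 ≤ PrP hf E (GO2 w a b) := by
  obtain ⟨cr, hcr, hring⟩ := RO_prob
  obtain ⟨c, hc, h⟩ := rsw_q 36
  refine ⟨cr * (c * c), by positivity, fun E w a b ha hb hE => ?_⟩
  unfold FO2 at hE
  rw [union_subset_iff, union_subset_iff] at hE
  have h1 := hring hf hf_Qh 1 (Or.inr rfl) w (a - 1) (3 * a) a E (by omega) (by omega) (by omega)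
    hE.1
  have h2 := (h hf hf_Qh E w.1 (w.1 + 12 * b) w.2 (w.2 + (a - 1)) (by omega) (by omega)
    hE.2.1).1 (by push_cast; omega)
  have h3 := (h hf hf_Qh E (w.1 + 11 * b) (w.1 + 12 * b) (w.2 - 5 * b) (w.2 + (a - 1)) (by omega)
    (by omega) hE.2.2).2 (by push_cast; omega)
  have k2 := PrP_harris hf_Pb E (HC_inc w.1 (w.1 + 12 * b) w.2 (w.2 + (a - 1)))
    (VC_inc (w.1 + 11 * b) (w.1 + 12 * b) (w.2 - 5 * b) (w.2 + (a - 1)))
  have k3 := PrP_harris hf_Pb E (RO_inc (κ := 1) (z := w) (ρ := a - 1) (R := 3 * a) (M := 3 * a))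
    (Inc.and (HC_inc w.1 (w.1 + 12 * b) w.2 (w.2 + (a - 1)))
      (VC_inc (w.1 + 11 * b) (w.1 + 12 * b) (w.2 - 5 * b) (w.2 + (a - 1))))
  have m2 := (mul_le_mul h2 h3 hc.le (hc.le.trans h2)).trans k2
  exact (mul_le_mul h1 m2 (by positivity) (hcr.le.trans h1)).trans k3

/-- probability of the closed part -/
theorem GC2_prob (K : ℕ) : ∃ c2 : ℝ, 0 < c2 ∧ ∀ (E : Finset (ℤ × ℤ)),
    (∀ e ∈ E, (e.1 + e.2) % 2 = 1) → ∀ (w : ℤ × ℤ) (b c : ℤ), 1 ≤ b → 9 * b ≤ 4 * c → c ≤ K * b →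
    c2 ≤ PrP hf E (GC2 w b c) := by
  obtain ⟨δ, hδ0, hδ1, hdec⟩ := open_arm_decay
  obtain ⟨cd, hcd, hd⟩ := dual_half (4 * K + 10)
  refine ⟨(cd * cd) * (cd * δ), by positivity, fun E hE w b c hb hbc hcK => ?_⟩
  have h1 := (hd E w.1 (w.1 + 10 * b) (w.2 - 3 * b) (w.2 - 2 * b) (by omega)
    (by omega)).2 (by omega) (by push_cast; nlinarith)
  have h2 := (hd E (w.1 + 9 * b) (w.1 + 10 * b) (w.2 - 7 * b) (w.2 - 2 * b) (by omega)
    (by omega)).1 (by omega) (by push_cast; nlinarith)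
  have h3 := (hd E (w.1 + 9 * b) (w.1 + 4 * c) (w.2 - 7 * b) (w.2 - 6 * b) (by omega)
    (by omega)).2 (by omega) (by push_cast; nlinarith)
  have h4 : δ ≤ 1 - PrP hf E (fun ω => Arm1 w c (4 * c) (ω \ BR w c)) := by
    have e1 : PrP hf E (fun ω => Arm1 w c (4 * c) (ω \ BR w c)) ≤ PrP hf E (Arm1 w c (4 * c)) :=
      PrP_mono hf_Pb fun ω _ h => Arm1_inc w c _ _ _ sdiff_subset h
    have e2 : PrP hf E (Arm1 w c (4 * c)) ≤ 1 - δ := by
      have e3 : PrP hf E (Arm1 w c (4 * c)) = Pr E (Arm1 w c (4 * c)) := PrP_half E _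
      rw [e3]
      have h := hdec E hE w c (by omega) 1
      rw [pow_one, pow_one] at h
      exact h
    linarith
  have i4 : Inc (fun ω : Finset (ℤ × ℤ) => Arm1 w c (4 * c) (ω \ BR w c)) := fun ω ω' h h1 =>
    Arm1_inc w c _ _ _ (sdiff_subset_sdiff h le_rfl) h1
  exact harris_not4 hf_Pb E (VC_inc _ _ _ _) (HC_inc _ _ _ _) (VC_inc _ _ _ _) i4 hcd.le hcd.le
    hcd.le hδ0.le h1 h2 h3 h4

lemma PC_TI : TI PC dC := by
  constructor
  · intro w t v
    unfold PC
    simp only [Prod.fst_add, Prod.snd_add]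
    constructor <;> intro h <;> omega
  · intro w t l
    unfold dC
    simp only [Prod.fst_add, Prod.snd_add, Prod.fst_sub, Prod.snd_sub]
    constructor <;> intro h <;> omega

lemma PC_dC {w y z : ℤ × ℤ} (h : IsUnit4 (z - y)) (hy : PC w y)
    (hl : 2 * (w.1 + w.2) ≤ (y + z).1 + (y + z).2) : dC w (y + z) := by
  have h1 := unit_cases h
  unfold PC at hy
  unfold dC
  simp only [Prod.fst_add, Prod.snd_add] at hl ⊢
  omega

/-- **three strands at a convex corner with a mark** -/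
theorem conv_le : ∃ C α : ℝ, 0 < C ∧ 0 < α ∧ ∀ (w : ℤ × ℤ) (ρ R : ℤ), 1 ≤ ρ → ρ ≤ R →
    ug PC dC w ρ R ≤ C * ((ρ : ℝ) / R) ^ (1 + α) := by
  obtain ⟨δ, hδ0, hδ1, hdec⟩ := open_arm_decay
  obtain ⟨c1, hc1, hGO⟩ := GO2_prob
  obtain ⟨k, hk⟩ := exists_pow_lt_of_lt_one (show (0 : ℝ) < 1 / 16 by norm_num)
    (show 1 - δ < 1 by linarith)
  set K : ℤ := 4 ^ (k + 2) with hK
  have hK16 : (16 : ℤ) ≤ K := by
    have h1 : (1 : ℤ) ≤ 4 ^ k := one_le_pow₀ (by norm_num)
    rw [hK, pow_add]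
    omega
  obtain ⟨c2, hc2, hGC⟩ := GC2_prob K.toNat
  have hKn : ((K.toNat : ℕ) : ℤ) = K := Int.toNat_of_nonneg (by omega)
  have hk' : (1 - δ) ^ (k + 2) ≤ 1 / 16 :=
    (pow_le_pow_of_le_one (by linarith) (by linarith) (by omega)).trans hk.le
  have hodd : ∀ (o : ℤ × ℤ) (N : ℤ), ∀ e ∈ HL 1 o (8 * N), (e.1 + e.2) % 2 = 1 := by
    intro o N e he
    rw [mem_HL] at he
    exact he.1.2.2
  refine corner_power PC_TI (fun w ρ hρ => by unfold PC; simp only; omega)
    3 K (by norm_num) le_rfl (by omega) (c0 := c1 * c2) (by positivity) (r := 1 - δ) (by linarith)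
    (by linarith) (fun o N => HL 1 o (8 * N)) (fun _ v => v.2)
    (fun o v => v.1 + v.2 - (o.1 + o.2)) (fun o t => (o.1 + o.2 - t, t)) (fun _ b t => t - 4 * b)
    ?_ (fun _ _ _ => le_rfl) ?_ ?_ ?_ ?_ ?_
  · intro o N l hl
    unfold HL at hl
    exact (mem_filter.1 hl).1
  · intro o N t ht
    rw [abs_le] at ht
    rw [inR_iff]
    simp only
    omega
  · intro o N t l hl hd
    unfold HL
    refine mem_filter.2 ⟨hl, ?_⟩
    unfold dC at hd
    unfold ht
    simp only at hd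
    omega
  · intro o N t y z h hl hy
    refine PC_dC h hy ?_
    rw [mem_HL] at hl
    simp only
    omega
  · intro o N hN
    have e3 : PrP hf (HL 1 o (8 * N)) (Arm1 o (2 * N) (8 * N)) =
        Pr (HL 1 o (8 * N)) (Arm1 o (2 * N) (8 * N)) := PrP_half _ _
    rw [e3]
    have h := hdec (HL 1 o (8 * N)) (hodd o N) o (2 * N) (by omega) 1
    rw [pow_one, pow_one, show (4 : ℤ) * (2 * N) = 8 * N by ring] at h
    exact h
  · intro o N hN t ht a ha haN
    set w : ℤ × ℤ := (o.1 + o.2 - t, t) with hw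
    set b := 3 * a with hb
    set c := K * b with hc
    set E := HL 1 o (8 * N) with hE
    rw [abs_le] at ht
    have hcb : 16 * b ≤ c := by rw [hc]; nlinarith
    have hwN : inR o N w := by rw [inR_iff]; simp only [hw]; omega
    have hw1 : w.1 = o.1 + o.2 - t := rfl
    have hw2 : w.2 = t := rfl
    have hEh : ∀ l ∈ E, 2 * (w.1 + w.2) ≤ l.1 + l.2 := by
      intro l hl
      rw [hE, mem_HL] at hl
      omega
    have hFOE : FO2 w a b ⊆ E := by
      intro l hl
      unfold FO2 at hl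
      rw [mem_union, mem_union, mem_AL, mem_Bx, mem_Bx] at hl
      rw [hE, mem_HL]
      omega
    have hFOc : FO2 w a b ⊆ BR w c := by
      intro l hl
      unfold FO2 at hl
      rw [mem_union, mem_union, mem_AL, mem_Bx, mem_Bx] at hl
      unfold BR
      rw [mem_Bx]
      omega
    have hbN' : BR w b ⊆ BR o (2 * N) := by
      unfold BR
      exact Bx_sub (by omega) (by omega) (by omega) (by omega)
    have hww : (fun v : ℤ × ℤ => v.1 + v.2 - (o.1 + o.2)) =
        (fun v : ℤ × ℤ => v.1 + v.2 - (w.1 + w.2)) := by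
      funext v
      rw [hw1, hw2]
      ring
    refine step5 (q := hf) (φ := fun v => v.2) (d := fun v => v.1 + v.2 - (o.1 + o.2))
      (G := fun ω' => GO2 w a b ω' ∧ GC2 w b c ω') (c := c) hf_Pb (by omega) (by omega) (by omega)
      hwN (by positivity) ?_ ?_ ?_
    · intro x hx ω ω' hω hω' h1 h2 h3 h4
      rw [hww]
      exact conv_det (c := c) ha hb rfl (by omega) hN hx hbN' h4 hEh hω hω' h1 h2 h3.1 h3.2
    · intro x ω
      refine fresh hf_Pb (E1 := (E ∩ BR w c) \ FC2 w b c)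
        (sdiff_subset.trans inter_subset_left) ?_ (GO2_inc w a b) ?_ ?_ hc2.le
        (hGO E w a b ha hb hFOE) (hGC E (hodd o N) w b c (by omega) (by omega) (by rw [hKn])) ω
      · intro l hl
        obtain ⟨g1, g2⟩ := mem_inter.1 hl
        classical
        have g3 := g1
        unfold DP at g3
        rw [mem_filter] at g3
        exact mem_sdiff.2 ⟨mem_inter.2 ⟨g3.1, g2⟩, fun h => PC_FC l h g3.2⟩
      · intro η _
        refine GO2_loc ?_
        intro l hl
        exact mem_sdiff.2 ⟨mem_inter.2 ⟨hFOE hl, hFOc hl⟩,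
          fun h => (disjoint_left.1 (FO2_FC hb)) hl h⟩
      · intro η _
        have hd : ∀ F : Finset (ℤ × ℤ), F ⊆ FC2 w b c →
            η ∩ F = (η \ ((E ∩ BR w c) \ FC2 w b c)) ∩ F := by
          intro F hF
          ext l
          simp only [mem_inter, mem_sdiff]
          constructor
          · rintro ⟨g1, g2⟩
            exact ⟨⟨g1, fun g => g.2 (hF g2)⟩, g2⟩
          · rintro ⟨⟨g1, -⟩, g2⟩
            exact ⟨g1, g2⟩
        have hS : η \ BR w c = (η \ ((E ∩ BR w c) \ FC2 w b c)) \ BR w c := by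
          ext l
          simp only [mem_inter, mem_sdiff]
          tauto
        unfold GC2
        rw [← hS]
        rw [VC_restrict w.1 (w.1 + 10 * b) (w.2 - 3 * b) (w.2 - 2 * b) η,
          HC_restrict (w.1 + 9 * b) (w.1 + 10 * b) (w.2 - 7 * b) (w.2 - 2 * b) η,
          VC_restrict (w.1 + 9 * b) (w.1 + 4 * c) (w.2 - 7 * b) (w.2 - 6 * b) η]
        rw [hd _ (by unfold FC2; exact subset_union_left),
          hd (Bx (w.1 + 9 * b) (w.1 + 10 * b) (w.2 - 7 * b) (w.2 - 2 * b))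
            (by unfold FC2; exact subset_union_left.trans subset_union_right),
          hd (Bx (w.1 + 9 * b) (w.1 + 4 * c) (w.2 - 7 * b) (w.2 - 6 * b))
            (by unfold FC2; exact subset_union_right.trans subset_union_right)]
        rw [← VC_restrict, ← HC_restrict, ← VC_restrict]
    · have e3 : PrP hf E (Arm1 w b c) = Pr E (Arm1 w b c) := PrP_half _ _
      rw [e3]
      have h := hdec E (hodd o N) w b (by omega) (k + 2)
      exact h.trans hk'

end Pool.Agent.H60.Q1.Corn
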