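import Mathlib
import Pool.Agent.H60.Q1.Corn.ConvP

set_option autoImplicit false
open Finset

/-!
# All corners, all orientations, both colours

`corner_reflex` (4 orientations), `corner_mark` (8 cases), `corner_convex` (4 orientations),
`ug_dual` (the other colour).
-/

namespace Pool.Agent.H60.Q1.Corn

open Pool.Agent.H75.Perc Pool.Agent.H75.TwoArm Pool.Agent.H75.Four Pool.Agent.H49.Perc
open Pool.Agent.H99.NC Pool.Agent.H60.Q1
open Pool.Agent.H20.Q1 (U3 u3 u3_le Pr_U3)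

/-- a linear symmetry which preserves the boxes -/
def Iso0 (S : Sy) : Prop :=
  (∀ (u : ℤ × ℤ) (m : ℤ), Near 0 m (S.g u) ↔ Near 0 m u) ∧
  (∀ (u : ℤ × ℤ) (m : ℤ), Far 0 m (S.g u) ↔ Far 0 m u) ∧
  (∀ (l : ℤ × ℤ) (m : ℤ), l ∈ BR 0 m ↔ S.G' l ∈ BR 0 m)

lemma iso_D : Iso0 syD := by
  refine ⟨fun u m => ?_, fun u m => ?_, fun l m => ?_⟩
  · unfold Near
    change |u.2 - 0| ≤ m ∧ |u.1 - 0| ≤ m ↔ |u.1 - 0| ≤ m ∧ |u.2 - 0| ≤ m
    tauto
  · unfold Far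
    change m ≤ |u.2 - 0| ∨ m ≤ |u.1 - 0| ↔ m ≤ |u.1 - 0| ∨ m ≤ |u.2 - 0|
    tauto
  · unfold BR
    rw [mem_Bx, mem_Bx]
    simp only [syD, Prod.fst_zero, Prod.snd_zero]
    omega

lemma iso_X : Iso0 (syX 0) := by
  refine ⟨fun u m => ?_, fun u m => ?_, fun l m => ?_⟩
  · unfold Near
    simp only [syX, Prod.fst_zero, Prod.snd_zero, abs_le]
    omega
  · unfold Far
    simp only [syX, Prod.fst_zero, Prod.snd_zero, le_abs]
    omega
  · unfold BR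
    rw [mem_Bx, mem_Bx]
    simp only [syX, Prod.fst_zero, Prod.snd_zero]
    omega

lemma iso_Y : Iso0 (syY 0) := by
  refine ⟨fun u m => ?_, fun u m => ?_, fun l m => ?_⟩
  · unfold Near
    simp only [syY, Prod.fst_zero, Prod.snd_zero, abs_le]
    omega
  · unfold Far
    simp only [syY, Prod.fst_zero, Prod.snd_zero, le_abs]
    omega
  · unfold BR
    rw [mem_Bx, mem_Bx]
    simp only [syY, Prod.fst_zero, Prod.snd_zero]
    omega

variable {P P' : ℤ × ℤ → ℤ × ℤ → Prop} {dm dm' : ℤ × ℤ → ℤ × ℤ → Prop}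

/-- symmetries -/
theorem ug_sym {S : Sy} (hS : Iso0 S) (hP : ∀ v, P' 0 (S.g v) ↔ P 0 v)
    (hd : ∀ l, dm' 0 l ↔ dm 0 (S.G' l)) (ρ R : ℤ) : ug P' dm' 0 ρ R = ug P dm 0 ρ R := by
  have hE : ∀ e, e ∈ AG dm' 0 ρ R ↔ S.G' e ∈ AG dm 0 ρ R := by
    intro e
    rw [mem_AG, mem_AG, hS.2.2 e R, hS.2.2 e ρ, hd]
  unfold ug
  have h := Sy_PrP S (1 / 2) hE (UG P' dm' 0 ρ R)
  refine h.trans (PrP_congr fun ω _ => ?_)
  unfold UG
  rw [S.map_inter ω hE]
  constructor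
  · rintro ⟨u, v, h1, h2, h3, h4⟩
    refine ⟨S.g' u, S.g' v, ?_, ?_, ?_, ?_⟩
    · rw [← hS.1, S.gg']; exact h1
    · rw [← hS.2.1, S.gg']; exact h2
    · rw [← S.co_iff, S.gg', S.gg']; exact h3
    · intro y hy
      rw [← S.co_iff, S.gg'] at hy
      exact (hP _).1 (h4 _ hy)
  · rintro ⟨u, v, h1, h2, h3, h4⟩
    refine ⟨S.g u, S.g v, (hS.1 _ _).2 h1, (hS.2.1 _ _).2 h2, (S.co_iff _ _ _).2 h3, ?_⟩
    intro y hy
    have h5 : Co (ω ∩ AG dm 0 ρ R) u (S.g' y) := by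
      rw [← S.co_iff, S.gg']; exact hy
    have h6 := (hP _).2 (h4 _ h5)
    rwa [S.gg'] at h6

/-- **the other colour** -/
theorem ug_dual (s : (ℤ × ℤ) ↪ (ℤ × ℤ)) {w : ℤ × ℤ} {ρ R : ℤ} {F : Finset (ℤ × ℤ)}
    (hF : AG dm w ρ R ⊆ F.map s) :
    PrP hf F (fun ω => UG P dm w ρ R ((F \ ω).map s)) = ug P dm w ρ R := by
  rw [← PrP_UG hF]
  have e1 : PrP hf (F.map s) (UG P dm w ρ R) = PrP hf F (fun ω => UG P dm w ρ R (ω.map s)) :=
    PrP_map s hf F _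
  have e2 := PrP_compl hf F (fun ω => UG P dm w ρ R (ω.map s))
  have e3 : (fun e : ℤ × ℤ => 1 - hf e) = hf := by
    funext e
    norm_num
  rw [e1]
  rw [e3] at e2
  exact e2.symm

/-! ### reflex corners -/

/-- reflex corner, removed cone below (`e = 1`) or above (`e = -1`) -/
def PRv (e : ℤ) (w v : ℤ × ℤ) : Prop := e * w.2 < e * v.2 + |v.1 - w.1|

def dRv (e : ℤ) (w l : ℤ × ℤ) : Prop := 2 * (e * w.2) ≤ e * l.2 + |l.1 - 2 * w.1|

/-- reflex corner, removed cone on the left (`e = 1`) or on the right (`e = -1`) -/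
def PRh (e : ℤ) (w v : ℤ × ℤ) : Prop := e * w.1 < e * v.1 + |v.2 - w.2|

def dRh (e : ℤ) (w l : ℤ × ℤ) : Prop := 2 * (e * w.1) ≤ e * l.1 + |l.2 - 2 * w.2|

lemma PRv_TI (e : ℤ) (he : e = 1 ∨ e = -1) : TI (PRv e) (dRv e) := by
  constructor
  · intro w t v
    unfold PRv
    simp only [Prod.fst_add, Prod.snd_add, add_sub_add_right_eq_sub]
    rcases he with rfl | rfl <;> constructor <;> intro h <;> omega
  · intro w t l
    unfold dRv
    simp only [Prod.fst_add, Prod.snd_add, Prod.fst_sub, Prod.snd_sub]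
    rw [show l.1 - (t.1 + t.1) - 2 * w.1 = l.1 - 2 * (w.1 + t.1) by ring]
    rcases he with rfl | rfl <;> constructor <;> intro h <;> omega

lemma PRh_TI (e : ℤ) (he : e = 1 ∨ e = -1) : TI (PRh e) (dRh e) := by
  constructor
  · intro w t v
    unfold PRh
    simp only [Prod.fst_add, Prod.snd_add, add_sub_add_right_eq_sub]
    rcases he with rfl | rfl <;> constructor <;> intro h <;> omega
  · intro w t l
    unfold dRh
    simp only [Prod.fst_add, Prod.snd_add, Prod.fst_sub, Prod.snd_sub]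
    rw [show l.2 - (t.2 + t.2) - 2 * w.2 = l.2 - 2 * (w.2 + t.2) by ring]
    rcases he with rfl | rfl <;> constructor <;> intro h <;> omega

lemma ug_PRv (e : ℤ) (he : e = 1 ∨ e = -1) (w : ℤ × ℤ) (ρ R : ℤ) :
    ug (PRv e) (dRv e) w ρ R = ug PR dR w ρ R := by
  rw [ug_eq (PRv_TI e he) w 0, ug_eq PR_TI w 0]
  rcases he with rfl | rfl
  · unfold PRv dRv PR dR
    simp only [one_mul]
  · refine ug_sym iso_Y ?_ ?_ ρ R
    · intro v
      unfold PRv PR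
      simp only [syY, Prod.fst_zero, Prod.snd_zero]
      constructor <;> intro h <;> omega
    · intro l
      unfold dRv dR
      simp only [syY, Prod.fst_zero, Prod.snd_zero]
      constructor <;> intro h <;> omega

lemma ug_PRh (e : ℤ) (he : e = 1 ∨ e = -1) (w : ℤ × ℤ) (ρ R : ℤ) :
    ug (PRh e) (dRh e) w ρ R = ug PR dR w ρ R := by
  rw [← ug_PRv e he, ug_eq (PRh_TI e he) w 0, ug_eq (PRv_TI e he) w 0]
  exact ug_sym iso_D (fun v => Iff.rfl) (fun l => Iff.rfl) ρ R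

/-- **four strands at a reflex corner, all orientations** -/
theorem corner_reflex : ∃ C α : ℝ, 0 < C ∧ 0 < α ∧ ∀ e : ℤ, (e = 1 ∨ e = -1) →
    ∀ (w : ℤ × ℤ) (ρ R : ℤ), 1 ≤ ρ → ρ ≤ R →
    ug (PRv e) (dRv e) w ρ R ≤ C * ((ρ : ℝ) / R) ^ (1 + α) ∧
    ug (PRh e) (dRh e) w ρ R ≤ C * ((ρ : ℝ) / R) ^ (1 + α) := by
  obtain ⟨C, α, hC, hα, h⟩ := refl_le
  refine ⟨C, α, hC, hα, fun e he w ρ R h1 h2 => ?_⟩
  rw [ug_PRv e he, ug_PRh e he]
  exact ⟨h w ρ R h1 h2, h w ρ R h1 h2⟩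

/-! ### convex corners -/

/-- labels of a quadrant with diagonal sides -/
def dQ (e f : ℤ) (w l : ℤ × ℤ) : Prop :=
  2 * (e * (w.1 + w.2)) ≤ e * (l.1 + l.2) ∧ 2 * (f * (w.2 - w.1)) ≤ f * (l.2 - l.1)

/-- the side `v.2 - v.1 = w.2 - w.1` is excluded -/
def PQ1 (f : ℤ) (w v : ℤ × ℤ) : Prop := f * (w.2 - w.1) < f * (v.2 - v.1)

/-- the side `v.1 + v.2 = w.1 + w.2` is excluded -/
def PQ2 (e : ℤ) (w v : ℤ × ℤ) : Prop := e * (w.1 + w.2) < e * (v.1 + v.2)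

/-- both sides are excluded -/
def PQ3 (e f : ℤ) (w v : ℤ × ℤ) : Prop := PQ1 f w v ∧ PQ2 e w v

lemma dQ_TI (e f : ℤ) (he : e = 1 ∨ e = -1) (hf : f = 1 ∨ f = -1) (w t l : ℤ × ℤ) :
    dQ e f (w + t) l ↔ dQ e f w (l - (t + t)) := by
  unfold dQ
  simp only [Prod.fst_add, Prod.snd_add, Prod.fst_sub, Prod.snd_sub]
  rcases he with rfl | rfl <;> rcases hf with rfl | rfl <;> constructor <;> intro h <;> omega

lemma PQ1_TI (e f : ℤ) (he : e = 1 ∨ e = -1) (hf : f = 1 ∨ f = -1) : TI (PQ1 f) (dQ e f) := by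
  refine ⟨fun w t v => ?_, dQ_TI e f he hf⟩
  unfold PQ1
  simp only [Prod.fst_add, Prod.snd_add]
  rcases hf with rfl | rfl <;> constructor <;> intro h <;> omega

lemma PQ2_TI (e f : ℤ) (he : e = 1 ∨ e = -1) (hf : f = 1 ∨ f = -1) : TI (PQ2 e) (dQ e f) := by
  refine ⟨fun w t v => ?_, dQ_TI e f he hf⟩
  unfold PQ2
  simp only [Prod.fst_add, Prod.snd_add]
  rcases he with rfl | rfl <;> constructor <;> intro h <;> omega

lemma PQ3_TI (e f : ℤ) (he : e = 1 ∨ e = -1) (hf : f = 1 ∨ f = -1) : TI (PQ3 e f) (dQ e f) := by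
  refine ⟨fun w t v => ?_, dQ_TI e f he hf⟩
  unfold PQ3
  rw [(PQ1_TI e f he hf).1, (PQ2_TI e f he hf).1]

lemma ug_PQ1 (e f : ℤ) (he : e = 1 ∨ e = -1) (hf : f = 1 ∨ f = -1) (w : ℤ × ℤ) (ρ R : ℤ) :
    ug (PQ1 f) (dQ e f) w ρ R = ug PC dC w ρ R := by
  have h0 : ug PC dC w ρ R = ug PC dC 0 ρ R := ug_eq PC_TI w 0
  have h1 : ug (PQ1 1) (dQ 1 1) 0 ρ R = ug PC dC 0 ρ R := by
    unfold PQ1 dQ PC dC
    simp only [one_mul]
  have h2 : ∀ e : ℤ, (e = 1 ∨ e = -1) → ug (PQ1 (-1)) (dQ e (-1)) 0 ρ R =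
      ug (PQ1 1) (dQ e 1) 0 ρ R := by
    intro e he
    refine ug_sym iso_D (fun v => ?_) (fun l => ?_) ρ R
    · unfold PQ1
      simp only [syD, Prod.fst_zero, Prod.snd_zero]
      constructor <;> intro h <;> omega
    · unfold dQ
      simp only [syD, Prod.fst_zero, Prod.snd_zero]
      rcases he with rfl | rfl <;> constructor <;> intro h <;> omega
  -- the reflection in the other diagonal
  have h3 : ug (PQ1 1) (dQ (-1) 1) 0 ρ R = ug (PQ1 1) (dQ 1 1) 0 ρ R := by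
    -- three symmetries: `x ↦ -x`, swap, `x ↦ -x`
    have a1 : ug (PQ1 1) (dQ (-1) 1) 0 ρ R = ug (PQ2 1) (dQ 1 (-1)) 0 ρ R := by
      refine ug_sym iso_X (fun v => ?_) (fun l => ?_) ρ R
      · unfold PQ1 PQ2
        simp only [syX, Prod.fst_zero, Prod.snd_zero]
        constructor <;> intro h <;> omega
      · unfold dQ
        simp only [syX, Prod.fst_zero, Prod.snd_zero]
        constructor <;> intro h <;> omega
    have a2 : ug (PQ2 1) (dQ 1 (-1)) 0 ρ R = ug (PQ2 1) (dQ 1 1) 0 ρ R := by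
      refine ug_sym iso_D (fun v => ?_) (fun l => ?_) ρ R
      · unfold PQ2
        simp only [syD, Prod.fst_zero, Prod.snd_zero]
        constructor <;> intro h <;> omega
      · unfold dQ
        simp only [syD, Prod.fst_zero, Prod.snd_zero]
        constructor <;> intro h <;> omega
    have a3 : ug (PQ2 1) (dQ 1 1) 0 ρ R = ug (PQ1 1) (dQ 1 1) 0 ρ R := by
      refine ug_sym iso_X (fun v => ?_) (fun l => ?_) ρ R
      · unfold PQ1 PQ2
        simp only [syX, Prod.fst_zero, Prod.snd_zero]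
        constructor <;> intro h <;> omega
      · unfold dQ
        simp only [syX, Prod.fst_zero, Prod.snd_zero]
        constructor <;> intro h <;> omega
    rw [a1, a2, a3]
  rw [ug_eq (PQ1_TI e f he hf) w 0, h0, ← h1]
  rcases he with rfl | rfl <;> rcases hf with rfl | rfl
  · rfl
  · exact h2 1 (Or.inl rfl)
  · exact h3
  · rw [h2 (-1) (Or.inr rfl), h3]

lemma ug_PQ2 (e f : ℤ) (he : e = 1 ∨ e = -1) (hf : f = 1 ∨ f = -1) (w : ℤ × ℤ) (ρ R : ℤ) :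
    ug (PQ2 e) (dQ e f) w ρ R = ug PC dC w ρ R := by
  rw [← ug_PQ1 f e hf he w ρ R, ug_eq (PQ2_TI e f he hf) w 0, ug_eq (PQ1_TI f e hf he) w 0]
  refine ug_sym iso_X (fun v => ?_) (fun l => ?_) ρ R
  · unfold PQ1 PQ2
    simp only [syX, Prod.fst_zero, Prod.snd_zero]
    rcases he with rfl | rfl <;> constructor <;> intro h <;> omega
  · unfold dQ
    simp only [syX, Prod.fst_zero, Prod.snd_zero]
    rcases he with rfl | rfl <;> rcases hf with rfl | rfl <;> constructor <;> intro h <;> omega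

/-- **three strands at a convex corner with a mark, all orientations** -/
theorem corner_mark : ∃ C α : ℝ, 0 < C ∧ 0 < α ∧ ∀ e f : ℤ, (e = 1 ∨ e = -1) →
    (f = 1 ∨ f = -1) → ∀ (w : ℤ × ℤ) (ρ R : ℤ), 1 ≤ ρ → ρ ≤ R →
    ug (PQ1 f) (dQ e f) w ρ R ≤ C * ((ρ : ℝ) / R) ^ (1 + α) ∧
    ug (PQ2 e) (dQ e f) w ρ R ≤ C * ((ρ : ℝ) / R) ^ (1 + α) := by
  obtain ⟨C, α, hC, hα, h⟩ := conv_le
  refine ⟨C, α, hC, hα, fun e f he hf w ρ R h1 h2 => ?_⟩
  rw [ug_PQ1 e f he hf, ug_PQ2 e f he hf]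
  exact ⟨h w ρ R h1 h2, h w ρ R h1 h2⟩

lemma ug_PQ3 (e f : ℤ) (he : e = 1 ∨ e = -1) (hf : f = 1 ∨ f = -1) (w : ℤ × ℤ) (ρ R : ℤ) :
    ug (PQ3 e f) (dQ e f) w ρ R = ug (PQ3 1 1) (dQ 1 1) w ρ R := by
  have hD : ∀ e : ℤ, (e = 1 ∨ e = -1) → ug (PQ3 e (-1)) (dQ e (-1)) 0 ρ R =
      ug (PQ3 e 1) (dQ e 1) 0 ρ R := by
    intro e he
    refine ug_sym iso_D (fun v => ?_) (fun l => ?_) ρ R
    · unfold PQ3 PQ1 PQ2
      simp only [syD, Prod.fst_zero, Prod.snd_zero]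
      rcases he with rfl | rfl <;> constructor <;> intro h <;> omega
    · unfold dQ
      simp only [syD, Prod.fst_zero, Prod.snd_zero]
      rcases he with rfl | rfl <;> constructor <;> intro h <;> omega
  have hX : ug (PQ3 (-1) 1) (dQ (-1) 1) 0 ρ R = ug (PQ3 1 (-1)) (dQ 1 (-1)) 0 ρ R := by
    refine ug_sym iso_X (fun v => ?_) (fun l => ?_) ρ R
    · unfold PQ3 PQ1 PQ2
      simp only [syX, Prod.fst_zero, Prod.snd_zero]
      constructor <;> intro h <;> omega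
    · unfold dQ
      simp only [syX, Prod.fst_zero, Prod.snd_zero]
      constructor <;> intro h <;> omega
  rw [ug_eq (PQ3_TI e f he hf) w 0, ug_eq (PQ3_TI 1 1 (Or.inl rfl) (Or.inl rfl)) w 0]
  rcases he with rfl | rfl <;> rcases hf with rfl | rfl
  · rfl
  · exact hD 1 (Or.inl rfl)
  · rw [hX, hD 1 (Or.inl rfl)]
  · rw [hD (-1) (Or.inr rfl), hX, hD 1 (Or.inl rfl)]

/-- a convex corner without mark: contained in the event at the flat wall -/
lemma PQ3_U3 {w : ℤ × ℤ} {ρ R : ℤ} {ω : Finset (ℤ × ℤ)} (h : UG (PQ3 1 1) (dQ 1 1) w ρ R ω) :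
    U3 1 w ρ R ω := by
  obtain ⟨u, v, hu, hv, huv, hcu⟩ := h
  have hsub : AG (dQ 1 1) w ρ R ⊆ AL 1 w ρ R := by
    intro l hl
    rw [mem_AG] at hl
    unfold AL
    refine mem_sdiff.2 ⟨?_, hl.1.2⟩
    have h1 := hl.1.1
    have h2 := hl.2.1
    unfold BR at h1
    rw [mem_Bx] at h1
    rw [mem_HL]
    omega
  have key : ∀ y, Co (ω ∩ AL 1 w ρ R) u y → Co (ω ∩ AG (dQ 1 1) w ρ R) u y ∧ PQ3 1 1 w y := by
    intro y hy
    induction hy with
    | refl => exact ⟨Co.refl _ _, hcu u (Co.refl _ _)⟩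
    | @tail p r _ hpr ih =>
      obtain ⟨g1, g2⟩ := mem_inter.1 hpr.2
      have h1 := unit_cases hpr.1
      have h2 := ih.2
      unfold PQ3 PQ1 PQ2 at h2
      have g3 : p + r ∈ AG (dQ 1 1) w ρ R := by
        unfold AL at g2
        obtain ⟨g4, g5⟩ := mem_sdiff.1 g2
        rw [mem_AG]
        refine ⟨⟨?_, g5⟩, ?_⟩
        · rw [mem_HL] at g4
          unfold BR
          rw [mem_Bx]
          exact g4.1
        · unfold dQ
          simp only [Prod.fst_add, Prod.snd_add]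
          omega
      have g6 : Co (ω ∩ AG (dQ 1 1) w ρ R) u r := ih.1.tail ⟨hpr.1, mem_inter.2 ⟨g1, g3⟩⟩
      exact ⟨g6, hcu r g6⟩
  refine ⟨u, v, hu, hv, huv.mono (inter_subset_inter_left hsub), fun y hy => ?_⟩
  have h1 := (key y hy).2
  unfold PQ3 PQ1 PQ2 at h1
  unfold ht
  omega

/-- **four strands at a convex corner, all orientations** -/
theorem corner_convex : ∃ C : ℝ, 0 < C ∧ ∀ e f : ℤ, (e = 1 ∨ e = -1) → (f = 1 ∨ f = -1) →
    ∀ (w : ℤ × ℤ) (ρ R : ℤ), 1 ≤ ρ → 1 ≤ R → ug (PQ3 e f) (dQ e f) w ρ R ≤ C * ((ρ : ℝ) / R) ^ 2 := by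
  obtain ⟨C, hC, h⟩ := u3_le
  refine ⟨C, hC, fun e f he hf w ρ R h1 h2 => ?_⟩
  rw [ug_PQ3 e f he hf]
  refine le_trans ?_ (h 1 (Or.inr rfl) w ρ R h1 h2)
  set F := AG (dQ 1 1) w ρ R ∪ AL 1 w ρ R with hF
  have e1 : PrP Corn.hf F (UG (PQ3 1 1) (dQ 1 1) w ρ R) = ug (PQ3 1 1) (dQ 1 1) w ρ R :=
    PrP_UG subset_union_left
  have e2 : PrP Corn.hf F (U3 1 w ρ R) = u3 1 w ρ R := by
    have e3 : PrP Corn.hf F (U3 1 w ρ R) = Pr F (U3 1 w ρ R) := PrP_half _ _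
    rw [e3]
    exact Pr_U3 subset_union_right
  rw [← e1, ← e2]
  exact PrP_mono hf_Pb fun ω _ h => PQ3_U3 h

/-- **introduction rule**: `a` is any set of labels (of a polygon, say). A cluster of `a` which comes from
the box of radius `ρ` around `w`, reaches distance `R`, and whose vertices at distance at most `R` are in
the strict inside of the model corner; labels of the model corner next to it belong to `a`. -/
theorem UG_intro {w u v : ℤ × ℤ} {ρ R : ℤ} (hρR : ρ < R) {ω a : Finset (ℤ × ℤ)} (hu : Near w ρ u)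
    (hv : Far w R v) (huv : Co (ω ∩ a) u v)
    (hP : ∀ y, Co (ω ∩ a) u y → inR w R y → P w y)
    (h1 : ∀ y z : ℤ × ℤ, IsUnit4 (z - y) → Co (ω ∩ a) u y → y + z ∈ AG dm w ρ R → y + z ∈ a)
    (h2 : ∀ l ∈ a, l ∈ BR w R → l ∉ BR w ρ → dm w l) : UG P dm w ρ R ω := by
  have hu0 := hu
  unfold Near at hu0
  obtain ⟨v', hv', c1⟩ := open_exit (M := R) huv ⟨by omega, by omega⟩ hv
  obtain ⟨u', hu', c2⟩ := Pool.Agent.H20.Q1.last_exit (w := w) (c := ρ) c1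
    (by rw [inR_iff]; rw [abs_le, abs_le] at hu0; omega)
    (by rw [inR_iff]; rw [le_abs, le_abs] at hv'; omega)
  have hsub : (ω ∩ a ∩ Bx (w.1 - R) (w.1 + R) (w.2 - R) (w.2 + R)) \ BR w ρ ⊆
      ω ∩ AG dm w ρ R := by
    intro l hl
    obtain ⟨g1, g2⟩ := mem_sdiff.1 hl
    obtain ⟨g3, g4⟩ := mem_inter.1 g1
    obtain ⟨g5, g6⟩ := mem_inter.1 g3
    exact mem_inter.2 ⟨g5, mem_AG.2 ⟨⟨g4, g2⟩, h2 l g6 g4 g2⟩⟩
  have c3 : Co (ω ∩ AG dm w ρ R) u' v' := c2.mono hsub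
  have cu : Co (ω ∩ a) u u' := (c1.mono inter_subset_left).trans
    (c2.mono (sdiff_subset.trans inter_subset_left)).symm
  have hNu' : Near w ρ u' := by
    unfold Near
    rw [inR_iff] at hu'
    rw [abs_le, abs_le]
    omega
  refine ⟨u', v', hNu', hv', c3, fun y hy => ?_⟩
  have key : Co (ω ∩ a) u y ∧ inR w R y := by
    induction hy with
    | refl =>
      refine ⟨cu, ?_⟩
      rw [inR_iff] at hu' ⊢
      omega
    | @tail p r _ hpr ih =>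
      obtain ⟨g1, g2⟩ := mem_inter.1 hpr.2
      refine ⟨ih.1.tail ⟨hpr.1, mem_inter.2 ⟨g1, h1 p r hpr.1 ih.1 g2⟩⟩, ?_⟩
      exact (Pool.Agent.H20.Q1.BR_ends hpr.1 (mem_AG.1 g2).1.1).2
  exact hP y key.1 key.2

end Pool.Agent.H60.Q1.Corn
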